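import Mathlib

/-!
# Plurisubharmonic functions, majorant version

`PshMaj Ω u`: `u` is upper semicontinuous on `Ω`, `< ⊤`, and its restriction to every closed affine
disc in `Ω` is dominated by the real part of an entire function as soon as this holds on the
boundary circle.  This is (Hörmander) equivalent to the definition with mean values; the
equivalence is proved in `Mean.lean`.
-/

open Set Filter Topology Metric
open scoped ComplexConjugate

namespace Pool.Agent.Lib.MP_eb85ab_an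

/-- Plurisubharmonic functions, majorant version. -/
structure PshMaj {E : Type*} [NormedAddCommGroup E] [NormedSpace ℂ E] (Ω : Set E) (u : E → EReal) :
    Prop where
  usc : UpperSemicontinuousOn u Ω
  lt_top : ∀ z ∈ Ω, u z < ⊤
  maj : ∀ a b : E, (∀ ζ : ℂ, ‖ζ‖ ≤ 1 → a + ζ • b ∈ Ω) → ∀ F : ℂ → ℂ, Differentiable ℂ F →
    (∀ ζ : ℂ, ‖ζ‖ = 1 → u (a + ζ • b) ≤ (((F ζ).re : ℝ) : EReal)) →
    ∀ ζ : ℂ, ‖ζ‖ ≤ 1 → u (a + ζ • b) ≤ (((F ζ).re : ℝ) : EReal)

section aux

lemma usc_add_real {α : Type*} [TopologicalSpace α] {s : Set α} {v : α → EReal} {φ : α → ℝ}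
    (hv : UpperSemicontinuousOn v s) (hφ : ContinuousOn φ s) :
    UpperSemicontinuousOn (fun x => v x + ((φ x : ℝ) : EReal)) s := by
  refine hv.add' (g := fun x => ((φ x : ℝ) : EReal)) ?_ ?_
  · exact (continuous_coe_real_ereal.comp_continuousOn hφ).upperSemicontinuousOn
  · intro x _
    exact EReal.continuousAt_add (Or.inr (EReal.coe_ne_bot _)) (Or.inr (EReal.coe_ne_top _))

lemma norm_add_mul_sq (ζ ξ : ℂ) (r : ℝ) (hξ : ‖ξ‖ = 1) :
    ‖ζ + (r : ℂ) * ξ‖ ^ 2 = ‖ζ‖ ^ 2 + r ^ 2 + 2 * r * (conj ζ * ξ).re := by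
  have h1 : ξ.re ^ 2 + ξ.im ^ 2 = 1 := by
    have := Complex.sq_norm ξ
    rw [hξ, Complex.normSq_apply] at this
    nlinarith
  rw [Complex.sq_norm, Complex.sq_norm, Complex.normSq_apply, Complex.normSq_apply]
  simp only [Complex.add_re, Complex.mul_re, Complex.ofReal_re, Complex.ofReal_im, Complex.add_im,
    Complex.mul_im, Complex.conj_re, Complex.conj_im]
  linear_combination r ^ 2 * h1

/-- From a local majorant property at the centres of small discs to the global one. -/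
lemma le_of_local {v : ℂ → EReal} (husc : UpperSemicontinuousOn v (closedBall 0 1))
    (htop : ∀ ζ ∈ closedBall (0 : ℂ) 1, v ζ < ⊤)
    (hloc : ∀ ζ : ℂ, ‖ζ‖ < 1 → ∃ r₀ : ℝ, 0 < r₀ ∧ ∀ r : ℝ, 0 < r → r < r₀ → ∀ G : ℂ → ℂ, Differentiable ℂ G →
       (∀ ξ : ℂ, ‖ξ‖ = 1 → v (ζ + (r : ℂ) * ξ) ≤ (((G ξ).re : ℝ) : EReal)) →
        v ζ ≤ (((G 0).re : ℝ) : EReal))
    {F : ℂ → ℂ} (hF : Differentiable ℂ F)
    (hb : ∀ ζ : ℂ, ‖ζ‖ = 1 → v ζ ≤ (((F ζ).re : ℝ) : EReal)) :
    ∀ ζ : ℂ, ‖ζ‖ ≤ 1 → v ζ ≤ (((F ζ).re : ℝ) : EReal) := by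
  intro ζ₁ hζ₁
  by_contra hcon
  push Not at hcon
  -- the real value of `v ζ₁`
  obtain ⟨x₁, hx₁⟩ : ∃ x₁ : ℝ, v ζ₁ = (x₁ : EReal) := by
    have h1 : v ζ₁ ≠ ⊤ := (htop ζ₁ (by simpa using hζ₁)).ne
    have h2 : v ζ₁ ≠ ⊥ := ne_bot_of_gt hcon
    exact ⟨(v ζ₁).toReal, (EReal.coe_toReal h1 h2).symm⟩
  have hx₁F : (F ζ₁).re < x₁ := by
    rw [hx₁] at hcon
    exact_mod_cast hcon
  set ε : ℝ := (x₁ - (F ζ₁).re) / 2 with hε
  have hεpos : 0 < ε := by rw [hε]; linarith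
  have hcont : ContinuousOn (fun ζ : ℂ => -((F ζ).re + ε * (1 - ‖ζ‖ ^ 2))) (closedBall 0 1) := by
    have : Continuous F := hF.continuous
    exact Continuous.continuousOn (by fun_prop)
  obtain ⟨ζ₀, hζ₀, hmax⟩ := (usc_add_real husc hcont).exists_isMaxOn
    ⟨ζ₁, by simpa using hζ₁⟩ (isCompact_closedBall 0 1)
  have hζ₀' : ‖ζ₀‖ ≤ 1 := by simpa using hζ₀
  rw [isMaxOn_iff] at hmax
  have h01 := hmax ζ₁ (show ζ₁ ∈ closedBall (0 : ℂ) 1 by simpa using hζ₁)
  rw [hx₁] at h01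
  obtain ⟨x₀, hx₀⟩ : ∃ x₀ : ℝ, v ζ₀ = (x₀ : EReal) := by
    have h1 : v ζ₀ ≠ ⊤ := (htop ζ₀ hζ₀).ne
    have h2 : v ζ₀ ≠ ⊥ := by
      intro h
      rw [h, EReal.bot_add, ← EReal.coe_add] at h01
      exact absurd h01 (not_le.mpr (EReal.bot_lt_coe _))
    exact ⟨(v ζ₀).toReal, (EReal.coe_toReal h1 h2).symm⟩
  rw [hx₀] at h01
  norm_cast at h01
  set m : ℝ := x₀ - ((F ζ₀).re + ε * (1 - ‖ζ₀‖ ^ 2)) with hm
  have hmpos : 0 < m := by
    have : ε * (1 - ‖ζ₁‖ ^ 2) ≤ ε := by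
      have : 0 ≤ ‖ζ₁‖ ^ 2 := by positivity
      nlinarith
    rw [hm]
    have h2 : x₁ - (F ζ₁).re = 2 * ε := by rw [hε]; ring
    linarith
  have hlt : ‖ζ₀‖ < 1 := by
    refine lt_of_le_of_ne hζ₀' ?_
    intro h1
    have h2 := hb ζ₀ h1
    rw [hx₀] at h2
    norm_cast at h2
    rw [hm, h1] at hmpos
    linarith
  obtain ⟨r₀, hr₀, hr⟩ := hloc ζ₀ hlt
  -- choose r
  set r : ℝ := min (r₀ / 2) ((1 - ‖ζ₀‖) / 2) with hrdef
  have hrpos : 0 < r := lt_min (by linarith) (by linarith)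
  have hr1 : r < r₀ := lt_of_le_of_lt (min_le_left _ _) (by linarith)
  have hr2 : r ≤ 1 - ‖ζ₀‖ := (min_le_right _ _).trans (by linarith)
  have key := hr r hrpos hr1
    (fun ξ => F (ζ₀ + r * ξ) + ((ε * (1 - ‖ζ₀‖ ^ 2 - r ^ 2) + m : ℝ) : ℂ)
      - ((2 * ε * r : ℝ) : ℂ) * (conj ζ₀ * ξ)) (by fun_prop) ?_
  · rw [hx₀, EReal.coe_le_coe_iff] at key
    simp only [mul_zero, add_zero, Complex.add_re, Complex.ofReal_re, sub_zero] at key
    have : 0 < ε * r ^ 2 := by positivity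
    nlinarith
  · intro ξ hξ
    have hmem : ζ₀ + r * ξ ∈ closedBall (0 : ℂ) 1 := by
      simp only [mem_closedBall, dist_zero_right]
      refine (norm_add_le _ _).trans ?_
      rw [norm_mul, hξ, Complex.norm_real, Real.norm_eq_abs, abs_of_pos hrpos]
      linarith
    have h2 := hmax _ hmem
    rw [hx₀] at h2
    have h3 : v (ζ₀ + r * ξ) ≤ ((m + ((F (ζ₀ + r * ξ)).re +
        ε * (1 - ‖ζ₀ + r * ξ‖ ^ 2)) : ℝ) : EReal) := by
      have h4 : v (ζ₀ + r * ξ) + ((-((F (ζ₀ + r * ξ)).re + ε * (1 - ‖ζ₀ + r * ξ‖ ^ 2)) : ℝ) : EReal)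
          ≤ (m : EReal) := by
        refine h2.trans ?_
        rw [← EReal.coe_add, hm, EReal.coe_le_coe_iff]
        linarith
      rw [EReal.coe_neg, ← sub_eq_add_neg, EReal.sub_le_iff_le_add] at h4
      · rwa [EReal.coe_add]
      · left; exact EReal.coe_ne_bot _
      · left; exact EReal.coe_ne_top _
    refine h3.trans ?_
    rw [EReal.coe_le_coe_iff, norm_add_mul_sq _ _ _ hξ]
    simp only [Complex.sub_re, Complex.add_re, Complex.ofReal_re, Complex.re_ofReal_mul]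
    exact le_of_eq (by ring)

end aux

section basic

variable {E : Type*} [NormedAddCommGroup E] [NormedSpace ℂ E] {Ω Ω' : Set E} {u v : E → EReal}

lemma PshMaj.mono (h : PshMaj Ω u) (hΩ : Ω' ⊆ Ω) : PshMaj Ω' u where
  usc := h.usc.mono hΩ
  lt_top := fun z hz => h.lt_top z (hΩ hz)
  maj := fun a b hab => h.maj a b (fun ζ hζ => hΩ (hab ζ hζ))

lemma PshMaj.sup (hu : PshMaj Ω u) (hv : PshMaj Ω v) : PshMaj Ω (fun z => max (u z) (v z)) where
  usc := hu.usc.sup hv.usc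
  lt_top := fun z hz => max_lt (hu.lt_top z hz) (hv.lt_top z hz)
  maj := fun a b hab F hF hb ζ hζ => max_le
    (hu.maj a b hab F hF (fun ξ hξ => (le_max_left _ _).trans (hb ξ hξ)) ζ hζ)
    (hv.maj a b hab F hF (fun ξ hξ => (le_max_right _ _).trans (hb ξ hξ)) ζ hζ)

lemma PshMaj.congr (hu : PshMaj Ω u) (h : EqOn v u Ω) : PshMaj Ω v where
  usc := by
    intro z hz y hy
    have hy' : u z < y := by rw [← h hz]; exact hy
    filter_upwards [hu.usc z hz y hy', self_mem_nhdsWithin] with x hx hxΩ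
    rw [h hxΩ]
    exact hx
  lt_top := fun z hz => by rw [h hz]; exact hu.lt_top z hz
  maj := fun a b hab F hF hb ζ hζ => by
    rw [h (hab ζ hζ)]
    exact hu.maj a b hab F hF (fun ξ hξ => by rw [← h (hab ξ hξ.le)]; exact hb ξ hξ) ζ hζ

lemma PshMaj.add_real (hu : PshMaj Ω u) (c : ℝ) : PshMaj Ω (fun z => u z + (c : EReal)) where
  usc := usc_add_real hu.usc continuousOn_const
  lt_top := fun z hz => EReal.add_lt_top (hu.lt_top z hz).ne (EReal.coe_ne_top _)
  maj := fun a b hab F hF hb ζ hζ => by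
    have key := hu.maj a b hab (fun ζ => F ζ - (c : ℂ)) (by fun_prop) (fun ξ hξ => ?_) ζ hζ
    · rw [Complex.sub_re, Complex.ofReal_re, EReal.coe_sub, EReal.le_sub_iff_add_le] at key
      · exact key
      · left; exact EReal.coe_ne_bot _
      · left; exact EReal.coe_ne_top _
    · rw [Complex.sub_re, Complex.ofReal_re, EReal.coe_sub, EReal.le_sub_iff_add_le]
      · exact hb ξ hξ
      · left; exact EReal.coe_ne_bot _
      · left; exact EReal.coe_ne_top _

lemma PshMaj.const_mul (hu : PshMaj Ω u) {c : ℝ} (hc : 0 < c) :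
    PshMaj Ω (fun z => (c : EReal) * u z) where
  usc := by
    have hcont : Continuous (fun x : EReal => (c : EReal) * x) := by
      have h0 : ∀ x : EReal, (c : EReal) * x = x * (c : EReal) := fun x => mul_comm _ _
      simp only [h0]
      rw [continuous_iff_continuousAt]
      intro x
      have hc0 : ((c : ℝ) : EReal) ≠ 0 := by exact_mod_cast hc.ne'
      exact (EReal.continuousAt_mul (p := (x, (c : EReal)))
        (Or.inr (EReal.coe_ne_bot _)) (Or.inr (EReal.coe_ne_top _)) (Or.inr hc0)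
        (Or.inr hc0)).comp (f := fun x : EReal => (x, (c : EReal))) (by fun_prop)
    refine hcont.comp_upperSemicontinuousOn hu.usc ?_
    intro x y hxy
    exact mul_le_mul_of_nonneg_left hxy (by exact_mod_cast hc.le)
  lt_top := fun z hz => by
    have h1 := hu.lt_top z hz
    induction hh : u z using EReal.rec with
    | bot => rw [EReal.coe_mul_bot_of_pos hc]; exact bot_lt_top
    | coe x => rw [← EReal.coe_mul]; exact EReal.coe_lt_top _
    | top => rw [hh] at h1; exact absurd h1 (lt_irrefl _)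
  maj := fun a b hab F hF hb ζ hζ => by
    have hkey : ∀ (x : EReal) (y : ℝ), x ≤ ((y / c : ℝ) : EReal) ↔ (c : EReal) * x ≤ (y : EReal) := by
      intro x y
      induction x using EReal.rec with
      | bot => rw [EReal.coe_mul_bot_of_pos hc]; simp
      | coe x =>
        rw [← EReal.coe_mul, EReal.coe_le_coe_iff, EReal.coe_le_coe_iff, le_div_iff₀ hc, mul_comm]
      | top => rw [EReal.coe_mul_top_of_pos hc]; simp
    have key := hu.maj a b hab (fun ζ => F ζ / (c : ℂ)) (by fun_prop) (fun ξ hξ => ?_) ζ hζ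
    · rw [Complex.div_ofReal_re, hkey] at key
      exact key
    · rw [Complex.div_ofReal_re, hkey]
      exact hb ξ hξ

lemma usc_of_locally (hΩ : ∀ z ∈ Ω, ∃ V : Set E, IsOpen V ∧ z ∈ V ∧
    ∃ v : E → EReal, PshMaj V v ∧ EqOn u v V) : UpperSemicontinuousOn u Ω := by
  intro z hz
  obtain ⟨V, hV, hzV, v, hv, huv⟩ := hΩ z hz
  intro y hy
  have hy' : v z < y := by rw [← huv hzV]; exact hy
  have h2 := hv.usc z hzV y hy'
  rw [hV.nhdsWithin_eq hzV] at h2
  refine mem_nhdsWithin_of_mem_nhds ?_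
  filter_upwards [h2, hV.mem_nhds hzV] with x hx hxV
  rw [huv hxV]
  exact hx

/-- Plurisubharmonicity is a local property. -/
lemma PshMaj.of_locally (hΩ : ∀ z ∈ Ω, ∃ V : Set E, IsOpen V ∧ z ∈ V ∧
    ∃ v : E → EReal, PshMaj V v ∧ EqOn u v V) : PshMaj Ω u where
  usc := usc_of_locally hΩ
  lt_top := fun z hz => by
    obtain ⟨V, hV, hzV, v, hv, huv⟩ := hΩ z hz
    rw [huv hzV]
    exact hv.lt_top z hzV
  maj := fun a b hab F hF hb => by
    have hcont : Continuous (fun ζ : ℂ => a + ζ • b) := by fun_prop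
    have husc : UpperSemicontinuousOn u Ω := usc_of_locally hΩ
    refine le_of_local (v := fun ζ => u (a + ζ • b)) ?_ ?_ ?_ hF hb
    · exact husc.comp (g := fun ζ : ℂ => a + ζ • b) hcont.continuousOn
        (fun ζ hζ => hab ζ (by simpa using hζ))
    · intro ζ hζ
      obtain ⟨V, hV, hzV, v, hv, huv⟩ := hΩ _ (hab ζ (by simpa using hζ))
      rw [huv hzV]
      exact hv.lt_top _ hzV
    · intro ζ hζ
      obtain ⟨V, hV, hzV, v, hv, huv⟩ := hΩ _ (hab ζ hζ.le)
      obtain ⟨r₀, hr₀, hball⟩ := Metric.isOpen_iff.mp (hV.preimage hcont) ζ hzV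
      refine ⟨r₀, hr₀, ?_⟩
      intro r hr hrr₀ G hG hGb
      have hmem : ∀ ξ : ℂ, ‖ξ‖ ≤ 1 → (a + ζ • b) + ξ • ((r : ℂ) • b) ∈ V := by
        intro ξ hξ
        have h1 : ζ + (r : ℂ) * ξ ∈ ball ζ r₀ := by
          rw [mem_ball, dist_eq_norm, add_sub_cancel_left, norm_mul, Complex.norm_real,
            Real.norm_eq_abs, abs_of_pos hr]
          nlinarith
        have h2 := hball h1
        rw [mem_preimage] at h2
        convert h2 using 1
        rw [smul_smul, add_smul, mul_comm ξ, add_assoc]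
      have h0 := hv.maj (a + ζ • b) ((r : ℂ) • b) hmem G hG (fun ξ hξ => ?_) 0 (by simp)
      · rw [zero_smul, add_zero] at h0
        rw [huv hzV]
        exact h0
      · rw [← huv (hmem ξ hξ.le)]
        have h3 := hGb ξ hξ
        convert h3 using 2
        rw [smul_smul, add_smul, mul_comm ξ, add_assoc]

end basic

end Pool.Agent.Lib.MP_eb85ab_an
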