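import Mathlib
import Pool.Agent.Lib.MP_eb85ab_an.Psh

/-!
# Composition of plurisubharmonic functions with entire maps

The proof doubles the variables (as for viscosity solutions), no regularisation is needed.
-/

open Set Filter Topology Metric
open scoped ComplexConjugate InnerProductSpace

namespace Pool.Agent.Lib.MP_eb85ab_an

lemma exists_taylor_two {E : Type*} [NormedAddCommGroup E] [NormedSpace ℂ E] [CompleteSpace E]
    {f : ℂ → E} (hf : Differentiable ℂ f) (ζ₀ : ℂ) :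
    ∃ (b : E) (g : ℂ → E), Differentiable ℂ g ∧
      ∀ t : ℂ, f (ζ₀ + t) = f ζ₀ + t • b + t ^ 2 • g t := by
  have h1 : Differentiable ℂ (dslope f ζ₀) := by
    rw [← differentiableOn_univ]
    exact (Complex.differentiableOn_dslope univ_mem).mpr hf.differentiableOn
  have h2 : Differentiable ℂ (dslope (dslope f ζ₀) ζ₀) := by
    rw [← differentiableOn_univ]
    exact (Complex.differentiableOn_dslope univ_mem).mpr h1.differentiableOn
  refine ⟨dslope f ζ₀ ζ₀, fun t => dslope (dslope f ζ₀) ζ₀ (ζ₀ + t), ?_, ?_⟩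
  · exact h2.comp (by fun_prop)
  · intro t
    have e1 := sub_smul_dslope f ζ₀ (ζ₀ + t)
    have e2 := sub_smul_dslope (dslope f ζ₀) ζ₀ (ζ₀ + t)
    rw [add_sub_cancel_left] at e1 e2
    rw [pow_two, mul_smul, e2, smul_sub, e1]
    abel

variable {E : Type*} [NormedAddCommGroup E] [InnerProductSpace ℂ E]
  {Ω : Set E} {u : E → EReal}

/-- The final contradiction in the doubling argument. -/
lemma doubling_step [CompleteSpace E] (hu : PshMaj Ω u) {f : ℂ → E} (hf : Differentiable ℂ f)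
    {F : ℂ → ℂ} (hF : Differentiable ℂ F) {ε M y δ : ℝ} (hε : 0 < ε) (hM : 0 ≤ M) (hδ : 0 < δ)
    {z : E} {ζ₀ : ℂ} (hζ₀ : ‖ζ₀‖ < 1) (hz : ball z δ ⊆ Ω) (hy : u z = (y : EReal))
    (hmax : ∀ z' ∈ ball z δ, ∀ ζ : ℂ, ‖ζ‖ ≤ 1 →
      u z' ≤ ((y - ((F ζ₀).re + ε * (1 - ‖ζ₀‖ ^ 2)) - M * ‖z - f ζ₀‖ ^ 2
        + ((F ζ).re + ε * (1 - ‖ζ‖ ^ 2)) + M * ‖z' - f ζ‖ ^ 2 : ℝ) : EReal)) : False := by
  obtain ⟨b, g, hg, htay⟩ := exists_taylor_two hf ζ₀
  obtain ⟨C, hC⟩ := (isCompact_closedBall (0 : ℂ) 1).exists_bound_of_continuousOn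
    hg.continuous.continuousOn
  have hev : ∀ᶠ r in 𝓝[>] (0 : ℝ), r < 1 - ‖ζ₀‖ ∧ r * ‖b‖ < δ ∧ r < 1 ∧ M * C ^ 2 * r ^ 2 < ε := by
    refine Filter.Eventually.filter_mono nhdsWithin_le_nhds ?_
    have h1 : ∀ᶠ r : ℝ in 𝓝 0, r < 1 - ‖ζ₀‖ :=
      (continuous_id.tendsto (0 : ℝ)).eventually (gt_mem_nhds (by simpa using hζ₀))
    have h2 : ∀ᶠ r : ℝ in 𝓝 0, r * ‖b‖ < δ :=
      ((by fun_prop : Continuous fun r : ℝ => r * ‖b‖).tendsto (0 : ℝ)).eventually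
        (gt_mem_nhds (by simpa using hδ))
    have h3 : ∀ᶠ r : ℝ in 𝓝 0, r < 1 := gt_mem_nhds one_pos
    have h4 : ∀ᶠ r : ℝ in 𝓝 0, M * C ^ 2 * r ^ 2 < ε :=
      ((by fun_prop : Continuous fun r : ℝ => M * C ^ 2 * r ^ 2).tendsto (0 : ℝ)).eventually
        (gt_mem_nhds (by simpa using hε))
    filter_upwards [h1, h2, h3, h4] with r a1 a2 a3 a4 using ⟨a1, a2, a3, a4⟩
  obtain ⟨r, ⟨hr1, hr2, hr3, hr4⟩, hr⟩ := (hev.and self_mem_nhdsWithin).exists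
  have hrpos : 0 < r := hr
  have hmem : ∀ ξ : ℂ, ‖ξ‖ ≤ 1 → z + ξ • ((r : ℂ) • b) ∈ ball z δ := by
    intro ξ hξ
    rw [mem_ball, dist_eq_norm, add_sub_cancel_left, norm_smul, norm_smul, Complex.norm_real,
      Real.norm_eq_abs, abs_of_pos hrpos]
    have : ‖ξ‖ * (r * ‖b‖) ≤ r * ‖b‖ := mul_le_of_le_one_left (by positivity) hξ
    linarith
  set w : E := z - f ζ₀ with hw
  have key := hu.maj z ((r : ℂ) • b) (fun ξ hξ => hz (hmem ξ hξ))
    (fun ξ => F (ζ₀ + r * ξ) + ((y - ((F ζ₀).re + ε * (1 - ‖ζ₀‖ ^ 2))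
        + ε * (1 - ‖ζ₀‖ ^ 2 - r ^ 2) + M * (r ^ 4 * C ^ 2) : ℝ) : ℂ)
      - ((2 * ε * r : ℝ) : ℂ) * (conj ζ₀ * ξ)
      - ((2 * M : ℝ) : ℂ) * ⟪w, (r * ξ) ^ 2 • g (r * ξ)⟫_ℂ) ?_ ?_ 0 (by simp)
  · rw [zero_smul, add_zero, hy, EReal.coe_le_coe_iff] at key
    simp only [mul_zero, add_zero, ne_eq, OfNat.ofNat_ne_zero, not_false_eq_true, zero_pow,
      zero_smul, inner_zero_right, sub_zero, Complex.add_re, Complex.ofReal_re] at key
    have h5 : 0 < r ^ 2 := by positivity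
    have h6 : M * (r ^ 4 * C ^ 2) = (M * C ^ 2 * r ^ 2) * r ^ 2 := by ring
    rw [h6] at key
    nlinarith
  · have h1 : Differentiable ℂ (fun ξ : ℂ => ⟪w, ((r : ℂ) * ξ) ^ 2 • g (r * ξ)⟫_ℂ) := by
      have h2 : Differentiable ℂ (fun ξ : ℂ => ((r : ℂ) * ξ) ^ 2 • g (r * ξ)) := by fun_prop
      exact (innerSL ℂ w).differentiable.comp h2
    fun_prop
  · intro ξ hξ
    have hζr : ‖ζ₀ + r * ξ‖ ≤ 1 := by
      refine (norm_add_le _ _).trans ?_
      rw [norm_mul, hξ, Complex.norm_real, Real.norm_eq_abs, abs_of_pos hrpos]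
      linarith
    refine (hmax _ (hmem ξ hξ.le) (ζ₀ + r * ξ) hζr).trans ?_
    have e1 : z + ξ • ((r : ℂ) • b) - f (ζ₀ + r * ξ) = w - ((r : ℂ) * ξ) ^ 2 • g (r * ξ) := by
      rw [htay, hw, smul_smul, mul_comm ξ]
      abel
    have e2 : ‖w - ((r : ℂ) * ξ) ^ 2 • g (r * ξ)‖ ^ 2 ≤
        ‖w‖ ^ 2 - 2 * (⟪w, ((r : ℂ) * ξ) ^ 2 • g (r * ξ)⟫_ℂ).re + r ^ 4 * C ^ 2 := by
      rw [@norm_sub_sq ℂ]
      have e3 : ‖((r : ℂ) * ξ) ^ 2 • g (r * ξ)‖ ≤ r ^ 2 * C := by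
        rw [norm_smul, norm_pow, norm_mul, hξ, Complex.norm_real, Real.norm_eq_abs,
          abs_of_pos hrpos, mul_one]
        refine mul_le_mul_of_nonneg_left (hC _ ?_) (by positivity)
        rw [mem_closedBall, dist_zero_right, norm_mul, hξ, Complex.norm_real, Real.norm_eq_abs,
          abs_of_pos hrpos]
        linarith
      have e4 : ‖((r : ℂ) * ξ) ^ 2 • g (r * ξ)‖ ^ 2 ≤ (r ^ 2 * C) ^ 2 :=
        pow_le_pow_left₀ (norm_nonneg _) e3 2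
      have e5 : (r ^ 2 * C) ^ 2 = r ^ 4 * C ^ 2 := by ring
      rw [e5] at e4
      simp only [RCLike.re_to_complex]
      linarith
    rw [e1, EReal.coe_le_coe_iff, norm_add_mul_sq _ _ _ hξ]
    simp only [Complex.sub_re, Complex.add_re, Complex.ofReal_re, Complex.re_ofReal_mul]
    have e6 := mul_le_mul_of_nonneg_left e2 hM
    nlinarith

lemma bddAbove_real_of_usc {α : Type*} [TopologicalSpace α] {s : Set α} (hs : IsCompact s)
    {v : α → EReal} (hv : UpperSemicontinuousOn v s) (htop : ∀ x ∈ s, v x < ⊤) :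
    ∃ B : ℝ, ∀ x ∈ s, v x ≤ (B : EReal) := by
  rcases s.eq_empty_or_nonempty with rfl | hne
  · exact ⟨0, by simp⟩
  obtain ⟨x, hx, hmax⟩ := hv.exists_isMaxOn hne hs
  rw [isMaxOn_iff] at hmax
  refine ⟨(v x).toReal, fun y hy => (hmax y hy).trans ?_⟩
  exact EReal.le_coe_toReal (htop x hx).ne

/-- The majorant property along entire curves. -/
theorem PshMaj.comp_curve [ProperSpace E] (hΩ : IsOpen Ω) (hu : PshMaj Ω u) {f : ℂ → E}
    (hf : Differentiable ℂ f) (hmem : ∀ ζ : ℂ, ‖ζ‖ ≤ 1 → f ζ ∈ Ω)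
    {F : ℂ → ℂ} (hF : Differentiable ℂ F)
    (hb : ∀ ζ : ℂ, ‖ζ‖ = 1 → u (f ζ) ≤ (((F ζ).re : ℝ) : EReal)) :
    ∀ ζ : ℂ, ‖ζ‖ ≤ 1 → u (f ζ) ≤ (((F ζ).re : ℝ) : EReal) := by
  intro ζ₁ hζ₁
  by_contra hcon
  push Not at hcon
  -- the real value of `u (f ζ₁)`
  obtain ⟨x₁, hx₁⟩ : ∃ x₁ : ℝ, u (f ζ₁) = (x₁ : EReal) := by
    have h1 : u (f ζ₁) ≠ ⊤ := (hu.lt_top _ (hmem ζ₁ hζ₁)).ne
    have h2 : u (f ζ₁) ≠ ⊥ := ne_bot_of_gt hcon
    exact ⟨(u (f ζ₁)).toReal, (EReal.coe_toReal h1 h2).symm⟩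
  have hx₁F : (F ζ₁).re < x₁ := by
    rw [hx₁] at hcon
    exact_mod_cast hcon
  set ε : ℝ := (x₁ - (F ζ₁).re) / 2 with hε
  have hεpos : 0 < ε := by rw [hε]; linarith
  set φ : ℂ → ℝ := fun ζ => (F ζ).re + ε * (1 - ‖ζ‖ ^ 2) with hφ
  have hφc : Continuous φ := by
    have : Continuous F := hF.continuous
    rw [hφ]
    fun_prop
  set m₁ : ℝ := x₁ - φ ζ₁ with hm₁
  have hm₁pos : 0 < m₁ := by
    have : ε * (1 - ‖ζ₁‖ ^ 2) ≤ ε := by
      have : 0 ≤ ‖ζ₁‖ ^ 2 := by positivity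
      nlinarith
    have h2 : x₁ - (F ζ₁).re = 2 * ε := by rw [hε]; ring
    simp only [hm₁, hφ]
    linarith
  -- the compact set
  set D : Set ℂ := closedBall 0 1 with hD
  have hDc : IsCompact D := isCompact_closedBall 0 1
  have hζ₁D : ζ₁ ∈ D := by simpa [hD] using hζ₁
  have hKc : IsCompact (f '' D) := hDc.image hf.continuous
  obtain ⟨δ, hδ, hδΩ⟩ := hKc.exists_cthickening_subset_open hΩ (by
    rintro _ ⟨ζ, hζ, rfl⟩
    exact hmem ζ (by simpa [hD] using hζ))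
  set K' : Set E := cthickening δ (f '' D) with hK'
  have hK'c : IsCompact K' := hKc.cthickening
  set Q : Set (E × ℂ) := K' ×ˢ D with hQ
  have hQc : IsCompact Q := hK'c.prod hDc
  have hfK' : ∀ ζ ∈ D, f ζ ∈ K' := fun ζ hζ => self_subset_cthickening _ (mem_image_of_mem f hζ)
  have hp₁ : (f ζ₁, ζ₁) ∈ Q := ⟨hfK' ζ₁ hζ₁D, hζ₁D⟩
  have husc1 : UpperSemicontinuousOn (fun p : E × ℂ => u p.1) Q :=
    hu.usc.comp (g := fun p : E × ℂ => p.1) continuous_fst.continuousOn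
      (fun p hp => hδΩ hp.1)
  have hfc : Continuous f := hf.continuous
  have husc2 : ∀ k : ℕ, UpperSemicontinuousOn
      (fun p : E × ℂ => u p.1 + ((-φ p.2 - k * ‖p.1 - f p.2‖ ^ 2 : ℝ) : EReal)) Q := fun k =>
    usc_add_real husc1 (Continuous.continuousOn (by fun_prop))
  have hmaxk : ∀ k : ℕ, ∃ p ∈ Q, ∀ q ∈ Q,
      u q.1 + ((-φ q.2 - k * ‖q.1 - f q.2‖ ^ 2 : ℝ) : EReal) ≤
      u p.1 + ((-φ p.2 - k * ‖p.1 - f p.2‖ ^ 2 : ℝ) : EReal) := by
    intro k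
    obtain ⟨p, hp, hmax⟩ := (husc2 k).exists_isMaxOn ⟨_, hp₁⟩ hQc
    rw [isMaxOn_iff] at hmax
    exact ⟨p, hp, hmax⟩
  choose p hpQ hpmax using hmaxk
  -- real values at the maxima
  have hval : ∀ k : ℕ, ∃ y : ℝ, u (p k).1 = (y : EReal) ∧
      m₁ ≤ y - φ (p k).2 - k * ‖(p k).1 - f (p k).2‖ ^ 2 := by
    intro k
    have h1 := hpmax k _ hp₁
    simp only [hx₁, sub_self, norm_zero] at h1
    have h2 : u (p k).1 ≠ ⊤ := (hu.lt_top _ (hδΩ (hpQ k).1)).ne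
    have h3 : u (p k).1 ≠ ⊥ := by
      intro h
      rw [h, EReal.bot_add, ← EReal.coe_add] at h1
      exact absurd h1 (not_le.mpr (EReal.bot_lt_coe _))
    refine ⟨(u (p k).1).toReal, (EReal.coe_toReal h2 h3).symm, ?_⟩
    rw [← EReal.coe_toReal h2 h3, ← EReal.coe_add, ← EReal.coe_add, EReal.coe_le_coe_iff] at h1
    simp only [hm₁]
    nlinarith
  choose y hy hym using hval
  obtain ⟨B, hB⟩ := bddAbove_real_of_usc hK'c (hu.usc.mono hδΩ) (fun x hx => hu.lt_top x (hδΩ hx))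
  obtain ⟨B₂, hB₂⟩ := hDc.exists_bound_of_continuousOn hφc.continuousOn
  have hbound : ∀ k : ℕ, (k : ℝ) * ‖(p k).1 - f (p k).2‖ ^ 2 ≤ B + B₂ := by
    intro k
    have h1 := hym k
    have h2 : y k ≤ B := by
      have := hB _ (hpQ k).1
      rw [hy k, EReal.coe_le_coe_iff] at this
      exact this
    have h3 := hB₂ _ (hpQ k).2
    rw [Real.norm_eq_abs, abs_le] at h3
    linarith
  obtain ⟨a, haQ, s, hs, hlim⟩ := hQc.tendsto_subseq hpQ
  have ha1 : a.1 = f a.2 := by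
    have hc : Tendsto (fun k => ‖(p (s k)).1 - f (p (s k)).2‖ ^ 2) atTop
        (𝓝 (‖a.1 - f a.2‖ ^ 2)) := by
      have : Continuous (fun q : E × ℂ => ‖q.1 - f q.2‖ ^ 2) := by fun_prop
      exact (this.tendsto a).comp hlim
    have h0 : Tendsto (fun k : ℕ => (B + B₂) / (k : ℝ)) atTop (𝓝 0) :=
      tendsto_const_div_atTop_nhds_zero_nat _
    have hle : ‖a.1 - f a.2‖ ^ 2 ≤ 0 := by
      refine le_of_tendsto_of_tendsto hc h0 ?_
      filter_upwards [eventually_gt_atTop 0] with k hk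
      have hk' : (0 : ℝ) < k := by exact_mod_cast hk
      rw [le_div_iff₀ hk']
      have hsk : (k : ℝ) ≤ (s k : ℝ) := by exact_mod_cast hs.le_apply
      have := hbound (s k)
      have h2 : 0 ≤ ‖(p (s k)).1 - f (p (s k)).2‖ ^ 2 := by positivity
      nlinarith
    have h3 : ‖a.1 - f a.2‖ = 0 := by
      have : 0 ≤ ‖a.1 - f a.2‖ := norm_nonneg _
      nlinarith
    exact sub_eq_zero.mp (norm_eq_zero.mp h3)
  -- the limit point has positive value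
  have hlimval : ((φ a.2 + m₁ : ℝ) : EReal) ≤ u a.1 := by
    by_contra hlt
    push Not at hlt
    have husc3 : UpperSemicontinuousOn (fun q : E × ℂ => u q.1 + ((-φ q.2 : ℝ) : EReal)) Q :=
      usc_add_real husc1 (Continuous.continuousOn (by fun_prop))
    have h1 : u a.1 + ((-φ a.2 : ℝ) : EReal) < (m₁ : EReal) := by
      rw [EReal.coe_neg, ← sub_eq_add_neg]
      refine EReal.sub_lt_of_lt_add ?_
      rw [← EReal.coe_add, add_comm]
      exact hlt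
    have h2 := husc3 a haQ _ h1
    have h3 : Tendsto (fun k => p (s k)) atTop (𝓝[Q] a) :=
      tendsto_nhdsWithin_iff.mpr ⟨hlim, Eventually.of_forall fun k => hpQ _⟩
    obtain ⟨k, hk⟩ := (h3.eventually h2).exists
    have h4 := hym (s k)
    have hk' : u (p (s k)).1 + ((-φ (p (s k)).2 : ℝ) : EReal) < (m₁ : EReal) := hk
    rw [hy (s k), ← EReal.coe_add, EReal.coe_lt_coe_iff] at hk'
    have h5 : 0 ≤ (s k : ℝ) * ‖(p (s k)).1 - f (p (s k)).2‖ ^ 2 := by positivity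
    linarith
  have ha2 : ‖a.2‖ < 1 := by
    have h1 : ‖a.2‖ ≤ 1 := by simpa [hD] using haQ.2
    refine lt_of_le_of_ne h1 ?_
    intro h2
    have h3 := hlimval.trans (ha1 ▸ hb a.2 h2)
    rw [EReal.coe_le_coe_iff] at h3
    simp only [hφ, h2] at h3
    linarith
  -- choose `k`
  have hev : ∀ᶠ k in atTop, ‖(p (s k)).2‖ < 1 ∧ dist (p (s k)).1 (f a.2) < δ := by
    have h1 : Tendsto (fun k => ‖(p (s k)).2‖) atTop (𝓝 ‖a.2‖) :=
      ((by fun_prop : Continuous fun q : E × ℂ => ‖q.2‖).tendsto a).comp hlim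
    have h2 : Tendsto (fun k => dist (p (s k)).1 (f a.2)) atTop (𝓝 (dist a.1 (f a.2))) :=
      ((by fun_prop : Continuous fun q : E × ℂ => dist q.1 (f a.2)).tendsto a).comp hlim
    rw [ha1, dist_self] at h2
    exact (h1.eventually (gt_mem_nhds ha2)).and (h2.eventually (gt_mem_nhds hδ))
  obtain ⟨k, hk1, hk2⟩ := hev.exists
  have hball : ball (p (s k)).1 (δ - dist (p (s k)).1 (f a.2)) ⊆ K' := by
    intro z' hz'
    rw [mem_ball] at hz'
    refine mem_cthickening_of_dist_le z' (f a.2) δ _ (mem_image_of_mem f haQ.2) ?_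
    have := dist_triangle z' (p (s k)).1 (f a.2)
    linarith
  refine doubling_step hu hf hF hεpos (Nat.cast_nonneg (s k)) (sub_pos.mpr hk2) hk1
    (hball.trans hδΩ) (hy (s k)) ?_
  intro z' hz' ζ hζ
  have h1 := hpmax (s k) (z', ζ) ⟨hball hz', by simpa [hD] using hζ⟩
  simp only [hy (s k)] at h1
  rw [← EReal.coe_add] at h1
  have h2 : u z' ≤ ((y (s k) + (-φ (p (s k)).2 - ↑(s k) * ‖(p (s k)).1 - f (p (s k)).2‖ ^ 2) -
      (-φ ζ - ↑(s k) * ‖z' - f ζ‖ ^ 2) : ℝ) : EReal) := by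
    rw [EReal.coe_sub]
    rw [EReal.le_sub_iff_add_le]
    · exact h1
    · left; exact EReal.coe_ne_bot _
    · left; exact EReal.coe_ne_top _
  refine h2.trans (le_of_eq ?_)
  rw [EReal.coe_eq_coe_iff]
  simp only [hφ]
  ring

/-- Composition of a plurisubharmonic function with an entire map. -/
theorem PshMaj.comp [ProperSpace E] (hΩ : IsOpen Ω) (hu : PshMaj Ω u) {Φ : E → E}
    (hΦ : Differentiable ℂ Φ) : PshMaj (Φ ⁻¹' Ω) (fun z => u (Φ z)) where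
  usc := hu.usc.comp (g := Φ) hΦ.continuous.continuousOn (fun _ h => h)
  lt_top := fun z hz => hu.lt_top _ hz
  maj := fun a b hab F hF hb => by
    refine hu.comp_curve hΩ (f := fun ζ => Φ (a + ζ • b)) ?_ hab hF hb
    exact hΦ.comp (by fun_prop)

end Pool.Agent.Lib.MP_eb85ab_an
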