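import Mathlib

/-!
# Plurisubharmonic functions, hyperconvex sets, pluricomplex Green functions

Functions take values in `[-∞, ∞]` (`EReal`).
-/

open Set Filter Topology MeasureTheory Metric
open scoped Real ENNReal

namespace Pool.Agent.Lib.MP_eb85ab_an

/-- The mean value `(1/2π) ∫ v(e^{iθ}) dθ` over the unit circle of a function with values in
`[-∞, ∞]`, defined as (mean of the positive part) - (mean of the negative part).  It is used for
functions bounded above on the circle only, so that the first mean is finite. -/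
noncomputable def circleMean (v : ℂ → EReal) : EReal :=
  (((∫⁻ θ in Ioc 0 (2 * π), (v (circleMap 0 1 θ)).toENNReal) / ENNReal.ofReal (2 * π) : ℝ≥0∞) :
      EReal) -
    (((∫⁻ θ in Ioc 0 (2 * π), (-v (circleMap 0 1 θ)).toENNReal) / ENNReal.ofReal (2 * π) : ℝ≥0∞) :
      EReal)

/-- `u` is plurisubharmonic on `Ω`: it is upper semicontinuous with values in `[-∞, ∞)`, and it
satisfies the sub-mean value inequality on each closed affine disc
`{a + ζ b : |ζ| ≤ 1}` contained in `Ω`. -/
structure IsPsh {E : Type*} [NormedAddCommGroup E] [NormedSpace ℂ E] (Ω : Set E) (u : E → EReal) :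
    Prop where
  usc : UpperSemicontinuousOn u Ω
  lt_top : ∀ z ∈ Ω, u z < ⊤
  mean : ∀ a b : E, (∀ ζ : ℂ, ‖ζ‖ ≤ 1 → a + ζ • b ∈ Ω) → u a ≤ circleMean fun ζ => u (a + ζ • b)

/-- The defining family of the pluricomplex Green function of `Ω` with poles at the points of `S`:
negative plurisubharmonic functions `u` on `Ω` with `u(w) ≤ log |w - a| + O(1)` as `w → a`, for
each `a ∈ S`. -/
structure IsGreenCompetitor {E : Type*} [NormedAddCommGroup E] [NormedSpace ℂ E] (Ω S : Set E)
    (u : E → EReal) : Prop where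
  psh : IsPsh Ω u
  neg : ∀ z ∈ Ω, u z < 0
  pole : ∀ a ∈ S, ∃ C : ℝ, ∀ᶠ w in 𝓝[≠] a, u w ≤ ((Real.log ‖w - a‖ + C : ℝ) : EReal)

/-- The pluricomplex Green function of `Ω` with poles at the points of `S`. -/
noncomputable def green {E : Type*} [NormedAddCommGroup E] [NormedSpace ℂ E] (Ω S : Set E)
    (z : E) : EReal :=
  ⨆ u : {u : E → EReal // IsGreenCompetitor Ω S u}, u.1 z

/-- `Ω` has a negative plurisubharmonic exhaustion function: `ρ < 0` is plurisubharmonic on `Ω`
and for each `c < 0` one has `ρ ≥ c` outside of a compact subset of `Ω`. -/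
def HasPshExhaustion {E : Type*} [NormedAddCommGroup E] [NormedSpace ℂ E] (Ω : Set E) : Prop :=
  ∃ ρ : E → EReal, IsPsh Ω ρ ∧ (∀ z ∈ Ω, ρ z < 0) ∧
    ∀ c : ℝ, c < 0 → ∃ K : Set E, K ⊆ Ω ∧ IsCompact K ∧ ∀ z ∈ Ω \ K, (c : EReal) ≤ ρ z

end Pool.Agent.Lib.MP_eb85ab_an
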