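import Mathlib
import Pool.Agent.Lib.MP_eb85ab_an.Defs
import Pool.Agent.Lib.MP_eb85ab_an.Psh

/-!
# Equivalence of the mean value version and the majorant version of plurisubharmonicity
-/

open Set Filter Topology MeasureTheory Metric
open scoped Real ENNReal ComplexConjugate

namespace Pool.Agent.Lib.MP_eb85ab_an

/-- The normalised measure on `(0, 2π]`. -/
noncomputable def nu : Measure ℝ :=
  ((volume.restrict (Ioc (0 : ℝ) (2 * π))) univ)⁻¹ • volume.restrict (Ioc (0 : ℝ) (2 * π))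

lemma vol_univ : (volume.restrict (Ioc (0 : ℝ) (2 * π))) univ = ENNReal.ofReal (2 * π) := by
  rw [Measure.restrict_apply_univ, Real.volume_Ioc, sub_zero]

instance : IsProbabilityMeasure nu := by
  constructor
  have h1 : (volume.restrict (Ioc (0 : ℝ) (2 * π))) univ ≠ 0 := by
    rw [vol_univ]
    simp [Real.pi_pos]
  have h2 : (volume.restrict (Ioc (0 : ℝ) (2 * π))) univ ≠ ⊤ := by
    rw [vol_univ]
    exact ENNReal.ofReal_ne_top
  rw [nu, Measure.smul_apply, smul_eq_mul]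
  exact ENNReal.inv_mul_cancel h1 h2

lemma circleMean_eq (v : ℂ → EReal) : circleMean v =
    ((∫⁻ θ, (v (circleMap 0 1 θ)).toENNReal ∂nu : ℝ≥0∞) : EReal) -
    ((∫⁻ θ, (-v (circleMap 0 1 θ)).toENNReal ∂nu : ℝ≥0∞) : EReal) := by
  have h : ∀ f : ℝ → ℝ≥0∞, (∫⁻ θ in Ioc 0 (2 * π), f θ) / ENNReal.ofReal (2 * π) =
      ∫⁻ θ, f θ ∂nu := by
    intro f
    rw [nu, ← laverage_eq', laverage_eq, vol_univ]
  rw [circleMean, h, h]

lemma norm_circleMap_one (θ : ℝ) : ‖circleMap 0 1 θ‖ = 1 := by simp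

lemma circleMean_mono {v w : ℂ → EReal} (h : ∀ ζ : ℂ, ‖ζ‖ = 1 → v ζ ≤ w ζ) :
    circleMean v ≤ circleMean w := by
  rw [circleMean_eq, circleMean_eq]
  refine EReal.sub_le_sub ?_ ?_
  · exact_mod_cast lintegral_mono fun θ =>
      EReal.toENNReal_le_toENNReal (h _ (norm_circleMap_one θ))
  · exact_mod_cast lintegral_mono fun θ =>
      EReal.toENNReal_le_toENNReal (EReal.neg_le_neg_iff.mpr (h _ (norm_circleMap_one θ)))

lemma circleAverage_eq_integral_nu (ψ : ℂ → ℝ) :
    Real.circleAverage ψ 0 1 = ∫ θ, ψ (circleMap 0 1 θ) ∂nu := by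
  rw [Real.circleAverage_eq_intervalAverage, nu, ← average_eq',
    uIoc_of_le (by positivity)]

lemma integrable_nu {ψ : ℂ → ℝ} (hψ : Continuous ψ) :
    Integrable (fun θ => ψ (circleMap 0 1 θ)) nu := by
  obtain ⟨C, hC⟩ := (isCompact_closedBall (0 : ℂ) 1).exists_bound_of_continuousOn
    hψ.continuousOn
  have hc : Continuous (fun θ => ψ (circleMap 0 1 θ)) := hψ.comp (continuous_circleMap 0 1)
  refine Integrable.of_bound hc.aestronglyMeasurable C ?_
  exact Eventually.of_forall fun θ => hC _ (by simp)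

lemma circleMean_coe {ψ : ℂ → ℝ} (hψ : Continuous ψ) :
    circleMean (fun ζ => ((ψ ζ : ℝ) : EReal)) = ((Real.circleAverage ψ 0 1 : ℝ) : EReal) := by
  rw [circleMean_eq, circleAverage_eq_integral_nu,
    integral_eq_lintegral_pos_part_sub_lintegral_neg_part (integrable_nu hψ)]
  have h1 : ∫⁻ θ, ENNReal.ofReal (ψ (circleMap 0 1 θ)) ∂nu ≠ ⊤ := by
    have := (integrable_nu hψ).lintegral_lt_top
    exact this.ne
  have h2 : ∫⁻ θ, ENNReal.ofReal (-ψ (circleMap 0 1 θ)) ∂nu ≠ ⊤ := by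
    have := (integrable_nu hψ).neg.lintegral_lt_top
    exact this.ne
  rw [EReal.coe_sub, EReal.coe_ennreal_toReal h1, EReal.coe_ennreal_toReal h2]
  simp only [EReal.real_coe_toENNReal, ← EReal.coe_neg]

lemma circleAverage_re {F : ℂ → ℂ} (hF : Differentiable ℂ F) :
    Real.circleAverage (fun ζ => (F ζ).re) 0 1 = (F 0).re := by
  have h1 : CircleIntegrable F 0 1 := hF.continuous.continuousOn.circleIntegrable zero_le_one
  have h2 := Complex.reCLM.circleAverage_comp_comm h1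
  have h3 : Real.circleAverage F 0 1 = F 0 :=
    (hF.diffContOnCl (s := ball 0 |1|)).circleAverage
  rw [h3] at h2
  exact h2

/-- The mean value version implies the majorant version. -/
theorem IsPsh.pshMaj {E : Type*} [NormedAddCommGroup E] [NormedSpace ℂ E] {Ω : Set E}
    {u : E → EReal} (hu : IsPsh Ω u) : PshMaj Ω u where
  usc := hu.usc
  lt_top := hu.lt_top
  maj := fun a b hab F hF hb => by
    have hcont : Continuous (fun ζ : ℂ => a + ζ • b) := by fun_prop
    refine le_of_local (v := fun ζ => u (a + ζ • b)) ?_ ?_ ?_ hF hb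
    · exact hu.usc.comp (g := fun ζ : ℂ => a + ζ • b) hcont.continuousOn
        (fun ζ hζ => hab ζ (by simpa using hζ))
    · intro ζ hζ
      exact hu.lt_top _ (hab ζ (by simpa using hζ))
    · intro ζ hζ
      refine ⟨1 - ‖ζ‖, by linarith, ?_⟩
      intro r hr hrr₀ G hG hGb
      have heq : ∀ ξ : ℂ, (a + ζ • b) + ξ • ((r : ℂ) • b) = a + (ζ + (r : ℂ) * ξ) • b := by
        intro ξ
        rw [smul_smul, add_smul, mul_comm ξ, add_assoc]
      have hmem : ∀ ξ : ℂ, ‖ξ‖ ≤ 1 → (a + ζ • b) + ξ • ((r : ℂ) • b) ∈ Ω := by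
        intro ξ hξ
        rw [heq]
        refine hab _ ((norm_add_le _ _).trans ?_)
        rw [norm_mul, Complex.norm_real, Real.norm_eq_abs, abs_of_pos hr]
        nlinarith
      refine (hu.mean (a + ζ • b) ((r : ℂ) • b) hmem).trans ?_
      have hc : Continuous (fun ζ => (G ζ).re) := Complex.continuous_re.comp hG.continuous
      rw [← circleAverage_re hG, ← circleMean_coe hc]
      refine circleMean_mono ?_
      intro ξ hξ
      rw [heq]
      exact hGb ξ hξ

/-- Approximation on the circle by real parts of entire functions. -/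
lemma exists_entire_near {ψ : ℂ → ℝ} (hψ : Continuous ψ) {ε : ℝ} (hε : 0 < ε) :
    ∃ F : ℂ → ℂ, Differentiable ℂ F ∧ ∀ ζ : ℂ, ‖ζ‖ = 1 → |ψ ζ - (F ζ).re| ≤ ε := by
  have : Fact (0 < 2 * π) := ⟨Real.two_pi_pos⟩
  let Ψ : C(AddCircle (2 * π), ℂ) := ⟨fun x => ((ψ ((AddCircle.toCircle x : Circle) : ℂ) : ℝ) : ℂ),
    Complex.continuous_ofReal.comp (hψ.comp (continuous_induced_dom.comp
      AddCircle.continuous_toCircle))⟩
  have hmem : Ψ ∈ (Submodule.span ℂ (range (@fourier (2 * π)))).topologicalClosure := by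
    rw [span_fourier_closure_eq_top]
    trivial
  rw [← SetLike.mem_coe, Submodule.topologicalClosure_coe, Metric.mem_closure_iff] at hmem
  obtain ⟨q, hq, hdist⟩ := hmem ε hε
  have hspan : ∀ q ∈ Submodule.span ℂ (range (@fourier (2 * π))), ∃ P Q : ℂ → ℂ,
      Differentiable ℂ P ∧ Differentiable ℂ Q ∧ ∀ x : AddCircle (2 * π),
        q x = P ((AddCircle.toCircle x : Circle) : ℂ) +
          conj (Q ((AddCircle.toCircle x : Circle) : ℂ)) := by
    intro q hq
    induction hq using Submodule.span_induction with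
    | mem q hq =>
      obtain ⟨n, rfl⟩ := hq
      obtain ⟨m, rfl | rfl⟩ := n.eq_nat_or_neg
      · refine ⟨fun z => z ^ m, fun _ => 0, by fun_prop, by fun_prop, fun x => ?_⟩
        rw [fourier_apply, AddCircle.toCircle_zsmul]
        simp
      · refine ⟨fun _ => 0, fun z => z ^ m, by fun_prop, by fun_prop, fun x => ?_⟩
        rw [fourier_neg, fourier_apply, AddCircle.toCircle_zsmul]
        simp
    | zero => exact ⟨fun _ => 0, fun _ => 0, by fun_prop, by fun_prop, fun x => by simp⟩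
    | add q₁ q₂ _ _ h₁ h₂ =>
      obtain ⟨P₁, Q₁, hP₁, hQ₁, e₁⟩ := h₁
      obtain ⟨P₂, Q₂, hP₂, hQ₂, e₂⟩ := h₂
      refine ⟨fun z => P₁ z + P₂ z, fun z => Q₁ z + Q₂ z, by fun_prop, by fun_prop, fun x => ?_⟩
      rw [ContinuousMap.add_apply, e₁, e₂, map_add]
      ring
    | smul c q _ h =>
      obtain ⟨P, Q, hP, hQ, e⟩ := h
      refine ⟨fun z => c * P z, fun z => conj c * Q z, by fun_prop, by fun_prop, fun x => ?_⟩
      rw [ContinuousMap.smul_apply, e, smul_eq_mul, map_mul, Complex.conj_conj]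
      ring
  obtain ⟨P, Q, hP, hQ, e⟩ := hspan q hq
  refine ⟨fun z => P z + Q z, by fun_prop, ?_⟩
  intro ζ hζ
  obtain ⟨x, hx⟩ : ∃ x : AddCircle (2 * π), ((AddCircle.toCircle x : Circle) : ℂ) = ζ := by
    have hT : (2 * π) ≠ 0 := Real.two_pi_pos.ne'
    obtain ⟨x, hx⟩ := (AddCircle.homeomorphCircle hT).surjective
      ⟨ζ, mem_sphere_zero_iff_norm.mpr hζ⟩
    refine ⟨x, ?_⟩
    rw [AddCircle.homeomorphCircle_apply] at hx
    rw [hx]
  have h1 : ‖Ψ x - q x‖ < ε := by
    rw [← dist_eq_norm]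
    exact (ContinuousMap.dist_apply_le_dist x).trans_lt hdist
  have h2 : |(Ψ x - q x).re| ≤ ‖Ψ x - q x‖ := Complex.abs_re_le_norm _
  have h3 : (Ψ x - q x).re = ψ ζ - (P ζ + Q ζ).re := by
    rw [e x, hx]
    have : Ψ x = ((ψ ((AddCircle.toCircle x : Circle) : ℂ) : ℝ) : ℂ) := rfl
    rw [this, hx]
    simp
  rw [h3] at h2
  linarith

end Pool.Agent.Lib.MP_eb85ab_an
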