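import Mathlib
import Pool.Agent.Lib.MP_eb85ab_an.Mean

/-!
# The majorant version of plurisubharmonicity implies the mean value version
-/

open Set Filter Topology MeasureTheory Metric
open scoped Real ENNReal ComplexConjugate

namespace Pool.Agent.Lib.MP_eb85ab_an

/-- Truncation from below. -/
noncomputable def trunc (v : ℂ → EReal) (k : ℕ) (ω : ℂ) : ℝ :=
  (max (v ω) ((-(k : ℝ) : ℝ) : EReal)).toReal

/-- Lipschitz regularisation on the unit circle. -/
noncomputable def reg (v : ℂ → EReal) (k : ℕ) (ζ : ℂ) : ℝ :=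
  ⨆ ω : sphere (0 : ℂ) 1, (trunc v k ω - k * dist ζ ω)

section

variable {v : ℂ → EReal} {B : ℝ} (hB0 : 0 ≤ B) (hB : ∀ ω ∈ sphere (0 : ℂ) 1, v ω ≤ (B : EReal))

include hB in
lemma coe_trunc {ω : ℂ} (hω : ω ∈ sphere (0 : ℂ) 1) (k : ℕ) :
    ((trunc v k ω : ℝ) : EReal) = max (v ω) ((-(k : ℝ) : ℝ) : EReal) := by
  refine EReal.coe_toReal ?_ ?_
  · exact (max_lt ((hB ω hω).trans_lt (EReal.coe_lt_top _)) (EReal.coe_lt_top _)).ne
  · exact ((EReal.bot_lt_coe _).trans_le (le_max_right _ _)).ne'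

include hB in
lemma le_coe_trunc {ω : ℂ} (hω : ω ∈ sphere (0 : ℂ) 1) (k : ℕ) :
    v ω ≤ ((trunc v k ω : ℝ) : EReal) := by
  rw [coe_trunc hB hω]
  exact le_max_left _ _

include hB0 hB in
lemma trunc_le {ω : ℂ} (hω : ω ∈ sphere (0 : ℂ) 1) (k : ℕ) : trunc v k ω ≤ B := by
  rw [← EReal.coe_le_coe_iff, coe_trunc hB hω]
  refine max_le (hB ω hω) ?_
  rw [EReal.coe_le_coe_iff]
  have : (0 : ℝ) ≤ k := Nat.cast_nonneg k
  linarith

include hB in
lemma trunc_anti {ω : ℂ} (hω : ω ∈ sphere (0 : ℂ) 1) {k l : ℕ} (h : k ≤ l) :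
    trunc v l ω ≤ trunc v k ω := by
  rw [← EReal.coe_le_coe_iff, coe_trunc hB hω, coe_trunc hB hω]
  refine max_le_max le_rfl ?_
  rw [EReal.coe_le_coe_iff]
  have : (k : ℝ) ≤ l := by exact_mod_cast h
  linarith

include hB0 hB in
lemma bdd_reg (k : ℕ) (ζ : ℂ) :
    BddAbove (range fun ω : sphere (0 : ℂ) 1 => (trunc v k ω - k * dist ζ ω)) := by
  refine ⟨B, ?_⟩
  rintro _ ⟨ω, rfl⟩
  have h1 := trunc_le hB0 hB ω.2 k
  have h2 : 0 ≤ (k : ℝ) * dist ζ ω := by positivity
  simp only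
  linarith

instance : Nonempty (sphere (0 : ℂ) 1) := ⟨⟨1, by simp⟩⟩

include hB0 hB in
lemma reg_le (k : ℕ) (ζ : ℂ) : reg v k ζ ≤ B := by
  refine ciSup_le fun ω => ?_
  have h1 := trunc_le hB0 hB ω.2 k
  have h2 : 0 ≤ (k : ℝ) * dist ζ ω := by positivity
  linarith

include hB0 hB in
lemma trunc_le_reg {ζ : ℂ} (hζ : ζ ∈ sphere (0 : ℂ) 1) (k : ℕ) : trunc v k ζ ≤ reg v k ζ := by
  have := le_ciSup (bdd_reg hB0 hB k ζ) ⟨ζ, hζ⟩
  simp only [dist_self, mul_zero, sub_zero] at this
  exact this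

include hB0 hB in
lemma reg_anti (ζ : ℂ) {k l : ℕ} (h : k ≤ l) : reg v l ζ ≤ reg v k ζ := by
  refine ciSup_mono (bdd_reg hB0 hB k ζ) fun ω => ?_
  have h1 := trunc_anti hB ω.2 h
  have h2 : (k : ℝ) ≤ l := by exact_mod_cast h
  have h3 : 0 ≤ dist ζ ω := dist_nonneg
  nlinarith

include hB0 hB in
lemma continuous_reg (k : ℕ) : Continuous (reg v k) := by
  have : LipschitzWith (k : NNReal) (reg v k) := by
    refine LipschitzWith.of_le_add_mul _ fun ζ ζ' => ?_
    refine ciSup_le fun ω => ?_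
    have h1 := le_ciSup (bdd_reg hB0 hB k ζ') ω
    have h2 : dist ζ' ω ≤ dist ζ ζ' + dist ζ ω := by
      rw [dist_comm ζ ζ']
      exact dist_triangle _ _ _
    have h3 : (0 : ℝ) ≤ k := Nat.cast_nonneg k
    have h4 : (((k : NNReal)) : ℝ) = k := by simp
    rw [h4]
    change trunc v k ω - k * dist ζ ω ≤ (⨆ ω : sphere (0 : ℂ) 1, (trunc v k ω - k * dist ζ' ω)) + _
    nlinarith
  exact this.continuous

include hB0 hB in
lemma tendsto_reg (husc : UpperSemicontinuousOn v (sphere 0 1)) {ζ : ℂ}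
    (hζ : ζ ∈ sphere (0 : ℂ) 1) :
    Tendsto (fun k => ((reg v k ζ : ℝ) : EReal)) atTop (𝓝 (v ζ)) := by
  refine tendsto_order.2 ⟨?_, ?_⟩
  · intro a ha
    refine Eventually.of_forall fun k => ha.trans_le ?_
    refine (le_coe_trunc hB hζ k).trans ?_
    exact_mod_cast trunc_le_reg hB0 hB hζ k
  · intro a ha
    obtain ⟨c, hc1, hc2⟩ := EReal.lt_iff_exists_real_btwn.mp ha
    obtain ⟨r, hr, hball⟩ := Metric.mem_nhdsWithin_iff.mp (husc ζ hζ c hc1)
    filter_upwards [eventually_ge_atTop ⌈-c⌉₊, eventually_ge_atTop ⌈(B - c) / r⌉₊] with k hk1 hk2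
    refine lt_of_le_of_lt ?_ hc2
    rw [EReal.coe_le_coe_iff]
    refine ciSup_le fun ω => ?_
    have hk1' : -c ≤ k := (Nat.le_ceil _).trans (by exact_mod_cast hk1)
    have hk2' : (B - c) / r ≤ k := (Nat.le_ceil _).trans (by exact_mod_cast hk2)
    rw [div_le_iff₀ hr] at hk2'
    by_cases hd : dist (ω : ℂ) ζ < r
    · have h1 : v ω < (c : EReal) := hball ⟨hd, ω.2⟩
      have h2 : trunc v k ω ≤ c := by
        rw [← EReal.coe_le_coe_iff, coe_trunc hB ω.2]
        refine max_le h1.le ?_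
        rw [EReal.coe_le_coe_iff]
        linarith
      have h3 : 0 ≤ (k : ℝ) * dist ζ ω := by positivity
      linarith
    · push Not at hd
      have h2 := trunc_le hB0 hB ω.2 k
      have h3 : (k : ℝ) * r ≤ k * dist ζ ω := by
        rw [dist_comm]
        exact mul_le_mul_of_nonneg_left hd (Nat.cast_nonneg k)
      linarith

include hB0 hB in
/-- Convergence of the means of the regularisations. -/
lemma tendsto_mean_reg (husc : UpperSemicontinuousOn v (sphere 0 1)) :
    Tendsto (fun k => ((Real.circleAverage (reg v k) 0 1 : ℝ) : EReal)) atTop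
      (𝓝 (circleMean v)) := by
  have hmem : ∀ θ : ℝ, circleMap 0 1 θ ∈ sphere (0 : ℂ) 1 := fun θ => by simp
  have hmeas : ∀ k, Measurable fun θ : ℝ => (((reg v k (circleMap 0 1 θ) : ℝ)) : EReal).toENNReal :=
    fun k => EReal.continuous_toENNReal.measurable.comp (continuous_coe_real_ereal.measurable.comp
      ((continuous_reg hB0 hB k).comp (continuous_circleMap 0 1)).measurable)
  have hmeas' : ∀ k, Measurable
      fun θ : ℝ => (-(((reg v k (circleMap 0 1 θ) : ℝ)) : EReal)).toENNReal :=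
    fun k => EReal.continuous_toENNReal.measurable.comp (continuous_neg.measurable.comp
      (continuous_coe_real_ereal.measurable.comp
        ((continuous_reg hB0 hB k).comp (continuous_circleMap 0 1)).measurable))
  have h1 : Tendsto (fun k => ∫⁻ θ, (((reg v k (circleMap 0 1 θ) : ℝ)) : EReal).toENNReal ∂nu)
      atTop (𝓝 (∫⁻ θ, (v (circleMap 0 1 θ)).toENNReal ∂nu)) := by
    refine tendsto_lintegral_of_dominated_convergence (fun _ => ENNReal.ofReal B) hmeas ?_ ?_ ?_
    · intro k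
      refine Eventually.of_forall fun θ => ?_
      simp only [EReal.real_coe_toENNReal]
      exact ENNReal.ofReal_le_ofReal (reg_le hB0 hB k _)
    · simp
    · refine Eventually.of_forall fun θ => ?_
      exact (EReal.continuous_toENNReal.tendsto _).comp (tendsto_reg hB0 hB husc (hmem θ))
  have h2 : Tendsto (fun k => ∫⁻ θ, (-(((reg v k (circleMap 0 1 θ) : ℝ)) : EReal)).toENNReal ∂nu)
      atTop (𝓝 (∫⁻ θ, (-v (circleMap 0 1 θ)).toENNReal ∂nu)) := by
    refine lintegral_tendsto_of_tendsto_of_monotone (fun k => (hmeas' k).aemeasurable) ?_ ?_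
    · refine Eventually.of_forall fun θ => ?_
      intro k l hkl
      refine EReal.toENNReal_le_toENNReal (EReal.neg_le_neg_iff.mpr ?_)
      exact_mod_cast reg_anti hB0 hB _ hkl
    · refine Eventually.of_forall fun θ => ?_
      exact (EReal.continuous_toENNReal.tendsto _).comp
        ((continuous_neg.tendsto _).comp (tendsto_reg hB0 hB husc (hmem θ)))
  have hfin : ∫⁻ θ, (v (circleMap 0 1 θ)).toENNReal ∂nu ≠ ⊤ := by
    refine ne_top_of_le_ne_top (b := ∫⁻ _θ : ℝ, ENNReal.ofReal B ∂nu) (by simp) ?_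
    refine lintegral_mono fun θ => ?_
    rw [← EReal.real_coe_toENNReal]
    exact EReal.toENNReal_le_toENNReal (hB _ (hmem θ))
  have h3 : ∀ k, ((Real.circleAverage (reg v k) 0 1 : ℝ) : EReal) =
      ((∫⁻ θ, (((reg v k (circleMap 0 1 θ) : ℝ)) : EReal).toENNReal ∂nu : ℝ≥0∞) : EReal) +
      -((∫⁻ θ, (-(((reg v k (circleMap 0 1 θ) : ℝ)) : EReal)).toENNReal ∂nu : ℝ≥0∞) : EReal) := by
    intro k
    rw [← circleMean_coe (continuous_reg hB0 hB k), circleMean_eq, sub_eq_add_neg]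
  simp only [h3]
  rw [circleMean_eq, sub_eq_add_neg]
  refine (EReal.continuousAt_add (p := (((∫⁻ θ, (v (circleMap 0 1 θ)).toENNReal ∂nu : ℝ≥0∞) :
    EReal), -((∫⁻ θ, (-v (circleMap 0 1 θ)).toENNReal ∂nu : ℝ≥0∞) : EReal)))
    (Or.inl ?_) (Or.inl ?_)).tendsto.comp (Tendsto.prodMk_nhds ?_ ?_)
  · simpa using hfin
  · simp
  · exact (continuous_coe_ennreal_ereal.tendsto _).comp h1
  · exact (continuous_neg.tendsto _).comp ((continuous_coe_ennreal_ereal.tendsto _).comp h2)

end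

/-- Sub-mean value inequality from the majorant property. -/
lemma le_circleMean {v : ℂ → EReal} {B : ℝ} (hB : ∀ ω ∈ sphere (0 : ℂ) 1, v ω ≤ (B : EReal))
    (husc : UpperSemicontinuousOn v (sphere 0 1)) {x : EReal}
    (hx : ∀ F : ℂ → ℂ, Differentiable ℂ F →
      (∀ ζ : ℂ, ‖ζ‖ = 1 → v ζ ≤ (((F ζ).re : ℝ) : EReal)) → x ≤ (((F 0).re : ℝ) : EReal)) :
    x ≤ circleMean v := by
  have hB0 : 0 ≤ max B 0 := le_max_right _ _
  have hB' : ∀ ω ∈ sphere (0 : ℂ) 1, v ω ≤ ((max B 0 : ℝ) : EReal) := fun ω hω =>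
    (hB ω hω).trans (by exact_mod_cast le_max_left _ _)
  refine ge_of_tendsto' (tendsto_mean_reg hB0 hB' husc) fun k => ?_
  refine le_of_forall_gt_imp_ge_of_dense ?_
  intro c hc
  obtain ⟨d, hd1, hd2⟩ := EReal.lt_iff_exists_real_btwn.mp hc
  rw [EReal.coe_lt_coe_iff] at hd1
  refine le_trans ?_ hd2.le
  set ε : ℝ := (d - Real.circleAverage (reg v k) 0 1) / 2 with hε
  have hεpos : 0 < ε := by rw [hε]; linarith
  have hcont := continuous_reg hB0 hB' k
  obtain ⟨F, hF, hFψ⟩ := exists_entire_near hcont hεpos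
  have h1 := hx (fun ζ => F ζ + (ε : ℂ)) (by fun_prop) (fun ζ hζ => ?_)
  · refine h1.trans ?_
    rw [EReal.coe_le_coe_iff]
    simp only [Complex.add_re, Complex.ofReal_re]
    have h2 : (F 0).re = Real.circleAverage (fun ζ => (F ζ).re) 0 1 := (circleAverage_re hF).symm
    have h3 : Real.circleAverage (fun ζ => (F ζ).re) 0 1 ≤
        Real.circleAverage (fun ζ => reg v k ζ + ε) 0 1 := by
      refine Real.circleAverage_mono ?_ ?_ ?_
      · exact (Complex.continuous_re.comp hF.continuous).continuousOn.circleIntegrable zero_le_one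
      · exact (hcont.add continuous_const).continuousOn.circleIntegrable zero_le_one
      · intro ζ hζ
        have := hFψ ζ (by simpa using hζ)
        rw [abs_le] at this
        linarith
    have h4 : Real.circleAverage (fun ζ => reg v k ζ + ε) 0 1 =
        Real.circleAverage (reg v k) 0 1 + ε := by
      have h5 := Real.circleAverage_fun_add (c := 0) (R := 1) (f₁ := reg v k) (f₂ := fun _ => ε)
        (hcont.continuousOn.circleIntegrable zero_le_one)
        (continuousOn_const.circleIntegrable zero_le_one)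
      rw [h5, Real.circleAverage_const]
    have h6 : d = Real.circleAverage (reg v k) 0 1 + 2 * ε := by rw [hε]; ring
    linarith
  · have hmem : ζ ∈ sphere (0 : ℂ) 1 := by simpa using hζ
    refine (le_coe_trunc hB' hmem k).trans ?_
    rw [EReal.coe_le_coe_iff]
    have h2 := trunc_le_reg hB0 hB' hmem k
    have h3 := hFψ ζ hζ
    rw [abs_le] at h3
    simp only [Complex.add_re, Complex.ofReal_re]
    linarith

/-- The majorant version implies the mean value version. -/
theorem PshMaj.isPsh {E : Type*} [NormedAddCommGroup E] [NormedSpace ℂ E] {Ω : Set E}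
    {u : E → EReal} (hu : PshMaj Ω u) : IsPsh Ω u where
  usc := hu.usc
  lt_top := hu.lt_top
  mean := fun a b hab => by
    have hcont : Continuous (fun ζ : ℂ => a + ζ • b) := by fun_prop
    have husc : UpperSemicontinuousOn (fun ζ : ℂ => u (a + ζ • b)) (sphere 0 1) :=
      hu.usc.comp (g := fun ζ : ℂ => a + ζ • b) hcont.continuousOn
        (fun ζ hζ => hab ζ (by rw [mem_sphere_zero_iff_norm] at hζ; exact hζ.le))
    obtain ⟨ω, hω, hmax⟩ := husc.exists_isMaxOn ⟨1, by simp⟩ (isCompact_sphere 0 1)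
    rw [isMaxOn_iff] at hmax
    refine le_circleMean (B := (u (a + ω • b)).toReal) ?_ husc ?_
    · intro ζ hζ
      refine (hmax ζ hζ).trans (EReal.le_coe_toReal ?_)
      exact (hu.lt_top _ (hab ω (by rw [mem_sphere_zero_iff_norm] at hω; exact hω.le))).ne
    · intro F hF hb
      have := hu.maj a b hab F hF hb 0 (by simp)
      rwa [zero_smul, add_zero] at this

theorem isPsh_iff_pshMaj {E : Type*} [NormedAddCommGroup E] [NormedSpace ℂ E] {Ω : Set E}
    {u : E → EReal} : IsPsh Ω u ↔ PshMaj Ω u :=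
  ⟨IsPsh.pshMaj, PshMaj.isPsh⟩

end Pool.Agent.Lib.MP_eb85ab_an
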