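import Mathlib
import Pool.Agent.Lib.MP_eb85ab_an.Reg
import Pool.Agent.Lib.MP_eb85ab_an.Comp

/-!
# An explicit competitor for the Green function
-/

open Set Filter Topology MeasureTheory Metric
open scoped Real ENNReal ComplexConjugate

namespace Pool.Agent.Lib.MP_eb85ab_an

lemma logE_le_iff {p x : ℝ} :
    ENNReal.log (ENNReal.ofReal p) ≤ (x : EReal) ↔ p ≤ Real.exp x := by
  rcases le_or_gt p 0 with hp | hp
  · rw [ENNReal.log_ofReal, if_pos hp]
    simp only [bot_le, true_iff]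
    exact hp.trans (Real.exp_pos x).le
  · rw [ENNReal.log_ofReal_of_pos hp, EReal.coe_le_coe_iff, Real.log_le_iff_le_exp hp]

lemma le_logE {p x : ℝ} (hp : 0 < p) (h : x ≤ Real.log p) :
    (x : EReal) ≤ ENNReal.log (ENNReal.ofReal p) := by
  rw [ENNReal.log_ofReal_of_pos hp, EReal.coe_le_coe_iff]
  exact h

section log

variable {E : Type*} [NormedAddCommGroup E] [NormedSpace ℂ E] {N : ℕ}

/-- The product of the distances to the poles, normalised by `D`. -/
noncomputable def prodDist (a : Fin N → E) (D : ℝ) (z : E) : ℝ := ∏ j, (‖z - a j‖ / D)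

omit [NormedSpace ℂ E] in
lemma continuous_prodDist (a : Fin N → E) (D : ℝ) : Continuous (prodDist a D) := by
  unfold prodDist
  fun_prop

lemma pshMaj_log (a : Fin N → E) {D : ℝ} (hD : 0 < D) :
    PshMaj univ (fun z => ENNReal.log (ENNReal.ofReal (prodDist a D z))) where
  usc := by
    refine (Continuous.continuousOn ?_).upperSemicontinuousOn
    exact ENNReal.continuous_log.comp (ENNReal.continuous_ofReal.comp (continuous_prodDist a D))
  lt_top := fun z _ => by
    rw [ENNReal.log_lt_top_iff]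
    exact ENNReal.ofReal_lt_top
  maj := fun x b _ F hF hb ζ₀ hζ₀ => by
    choose g hg1 hg2 using fun j => exists_dual_vector'' ℂ (x + ζ₀ • b - a j)
    set G : ℂ → ℂ := fun ζ => (∏ j, (g j (x + ζ • b - a j) / (D : ℂ))) * Complex.exp (-F ζ) with hG
    have hGd : Differentiable ℂ G := by
      rw [hG]
      have h1 : ∀ j, Differentiable ℂ (fun ζ : ℂ => g j (x + ζ • b - a j) / (D : ℂ)) := by
        intro j
        have : Differentiable ℂ (fun ζ : ℂ => g j (x + ζ • b - a j)) :=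
          (g j).differentiable.comp (by fun_prop)
        fun_prop
      fun_prop
    have hGb : ∀ ζ : ℂ, ‖ζ‖ = 1 → ‖G ζ‖ ≤ 1 := by
      intro ζ hζ
      have h1 := logE_le_iff.mp (hb ζ hζ)
      rw [hG]
      simp only [norm_mul, norm_prod, norm_div, Complex.norm_real, Real.norm_eq_abs,
        abs_of_pos hD, Complex.norm_exp, Complex.neg_re]
      have h2 : ∏ j, ‖g j (x + ζ • b - a j)‖ / D ≤ prodDist a D (x + ζ • b) := by
        refine Finset.prod_le_prod (fun j _ => by positivity) (fun j _ => ?_)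
        refine div_le_div_of_nonneg_right ?_ hD.le
        refine ((g j).le_opNorm _).trans ?_
        exact mul_le_of_le_one_left (norm_nonneg _) (hg1 j)
      calc (∏ j, ‖g j (x + ζ • b - a j)‖ / D) * Real.exp (-(F ζ).re)
          ≤ Real.exp (F ζ).re * Real.exp (-(F ζ).re) :=
            mul_le_mul_of_nonneg_right (h2.trans h1) (Real.exp_pos _).le
        _ = 1 := by rw [← Real.exp_add, add_neg_cancel, Real.exp_zero]
    have hmax : ‖G ζ₀‖ ≤ 1 := by
      refine Complex.norm_le_of_forall_mem_frontier_norm_le (U := ball (0 : ℂ) 1) isBounded_ball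
        hGd.diffContOnCl ?_ ?_
      · intro z hz
        rw [frontier_ball (0 : ℂ) one_ne_zero, mem_sphere_zero_iff_norm] at hz
        exact hGb z hz
      · rw [closure_ball (0 : ℂ) one_ne_zero]
        simpa using hζ₀
    rw [logE_le_iff]
    rw [hG] at hmax
    simp only [norm_mul, norm_prod, norm_div, Complex.norm_real, Real.norm_eq_abs,
      abs_of_pos hD, Complex.norm_exp, Complex.neg_re, hg2] at hmax
    have h5 : prodDist a D (x + ζ₀ • b) * Real.exp (-(F ζ₀).re) ≤ 1 := by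
      simpa [prodDist, abs_of_pos hD] using hmax
    calc prodDist a D (x + ζ₀ • b)
        = prodDist a D (x + ζ₀ • b) * Real.exp (-(F ζ₀).re) * Real.exp (F ζ₀).re := by
          rw [mul_assoc, ← Real.exp_add, neg_add_cancel, Real.exp_zero, mul_one]
      _ ≤ 1 * Real.exp (F ζ₀).re := mul_le_mul_of_nonneg_right h5 (Real.exp_pos _).le
      _ = Real.exp (F ζ₀).re := one_mul _

/-- The logarithmic competitor. -/
noncomputable def logT (a : Fin N → E) (D : ℝ) (z : E) : EReal :=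
  ENNReal.log (ENNReal.ofReal (prodDist a D z)) + ((-1 : ℝ) : EReal)

lemma pshMaj_logT (a : Fin N → E) {D : ℝ} (hD : 0 < D) : PshMaj univ (logT a D) :=
  (pshMaj_log a hD).add_real (-1)

omit [NormedSpace ℂ E] in
lemma logT_neg {a : Fin N → E} {D : ℝ} (hD : 0 < D) {z : E} (h : ∀ j, ‖z - a j‖ ≤ D) :
    logT a D z < 0 := by
  have h1 : prodDist a D z ≤ 1 := by
    refine Finset.prod_le_one (fun j _ => by positivity) (fun j _ => ?_)
    rw [div_le_one hD]
    exact h j
  have h2 : ENNReal.log (ENNReal.ofReal (prodDist a D z)) ≤ ((0 : ℝ) : EReal) := by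
    rw [logE_le_iff, Real.exp_zero]
    exact h1
  calc logT a D z ≤ ((0 : ℝ) : EReal) + ((-1 : ℝ) : EReal) := add_le_add h2 le_rfl
    _ < 0 := by
      rw [← EReal.coe_add]
      exact_mod_cast (by norm_num : (0 : ℝ) + -1 < 0)

omit [NormedSpace ℂ E] in
lemma logT_le {a : Fin N → E} {D : ℝ} (hD : 0 < D) {z : E} (h : ∀ j, ‖z - a j‖ ≤ D) (j : Fin N)
    (hj : z ≠ a j) : logT a D z ≤ ((Real.log ‖z - a j‖ + (-Real.log D - 1) : ℝ) : EReal) := by
  have hpos : 0 < ‖z - a j‖ := norm_pos_iff.mpr (sub_ne_zero.mpr hj)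
  have h1 : prodDist a D z ≤ ‖z - a j‖ / D := by
    unfold prodDist
    rw [← Finset.mul_prod_erase Finset.univ _ (Finset.mem_univ j)]
    refine mul_le_of_le_one_right (by positivity) ?_
    refine Finset.prod_le_one (fun j _ => by positivity) (fun j _ => ?_)
    rw [div_le_one hD]
    exact h j
  have h2 : ENNReal.log (ENNReal.ofReal (prodDist a D z)) ≤
      ((Real.log ‖z - a j‖ - Real.log D : ℝ) : EReal) := by
    rw [logE_le_iff, Real.exp_sub, Real.exp_log hpos, Real.exp_log hD]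
    exact h1
  calc logT a D z ≤ ((Real.log ‖z - a j‖ - Real.log D : ℝ) : EReal) + ((-1 : ℝ) : EReal) :=
        add_le_add h2 le_rfl
    _ = _ := by
      rw [← EReal.coe_add, EReal.coe_eq_coe_iff]
      ring

omit [NormedSpace ℂ E] in
lemma le_logT {a : Fin N → E} {D s : ℝ} (hD : 0 < D) (hs : 0 < s) {z : E}
    (h : ∀ j, s ≤ ‖z - a j‖) : ((N * Real.log (s / D) - 1 : ℝ) : EReal) ≤ logT a D z := by
  have h1 : (s / D) ^ N ≤ prodDist a D z := by
    unfold prodDist
    have : (s / D) ^ N = ∏ _j : Fin N, (s / D) := by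
      rw [Finset.prod_const, Finset.card_univ, Fintype.card_fin]
    rw [this]
    refine Finset.prod_le_prod (fun j _ => by positivity) (fun j _ => ?_)
    exact div_le_div_of_nonneg_right (h j) hD.le
  have hpos : 0 < (s / D) ^ N := by positivity
  have h2 : ((N * Real.log (s / D) : ℝ) : EReal) ≤
      ENNReal.log (ENNReal.ofReal (prodDist a D z)) := by
    refine le_logE (hpos.trans_le h1) ?_
    rw [← Real.log_pow]
    exact Real.log_le_log hpos h1
  calc ((N * Real.log (s / D) - 1 : ℝ) : EReal)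
      = ((N * Real.log (s / D) : ℝ) : EReal) + ((-1 : ℝ) : EReal) := by
        rw [← EReal.coe_add, EReal.coe_eq_coe_iff]
        ring
    _ ≤ logT a D z := add_le_add h2 le_rfl

end log

section v0

variable {E : Type*} [NormedAddCommGroup E] [NormedSpace ℂ E] {N : ℕ}

/-- The competitor with poles `a j`: `T` near the origin, `max (T, ρ)` elsewhere. -/
noncomputable def comp0 (a : Fin N → E) (D r₀ : ℝ) (ρ : E → EReal) (z : E) : EReal :=
  open Classical in if ‖z‖ < r₀ then logT a D z else max (logT a D z) (ρ z)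

omit [NormedSpace ℂ E] in
lemma logT_le_comp0 (a : Fin N → E) (D r₀ : ℝ) (ρ : E → EReal) (z : E) :
    logT a D z ≤ comp0 a D r₀ ρ z := by
  unfold comp0
  split_ifs
  · exact le_rfl
  · exact le_max_left _ _

omit [NormedSpace ℂ E] in
lemma rho_le_comp0 (a : Fin N → E) (D r₀ : ℝ) (ρ : E → EReal) {z : E} (hz : r₀ ≤ ‖z‖) :
    ρ z ≤ comp0 a D r₀ ρ z := by
  unfold comp0
  rw [if_neg (not_lt.mpr hz)]
  exact le_max_right _ _

/-- The data of a bounded set with an exhaustion, adapted to `N` poles in the ball of radius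
`r₀ / 2`. -/
structure Data (Ω : Set E) (N : ℕ) (D r₀ : ℝ) (ρ : E → EReal) : Prop where
  hΩ : IsOpen Ω
  hr₀ : 0 < r₀
  hrD : r₀ ≤ D
  hball : closedBall 0 r₀ ⊆ Ω
  hD : ∀ z ∈ Ω, ∀ w ∈ Ω, ‖z - w‖ ≤ D
  hρ : PshMaj Ω ρ
  hneg : ∀ z ∈ Ω, ρ z < 0
  hexh : ∀ c : ℝ, c < 0 → ∃ K : Set E, K ⊆ Ω ∧ IsCompact K ∧ ∀ z ∈ Ω \ K, (c : EReal) ≤ ρ z
  hsmall : ∀ z ∈ closedBall (0 : E) r₀, ρ z ≤ ((N * Real.log (r₀ / 4 / D) - 1 : ℝ) : EReal)

variable {Ω : Set E} {D r₀ : ℝ} {ρ : E → EReal}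

lemma Data.hD0 (d : Data Ω N D r₀ ρ) : 0 < D := d.hr₀.trans_le d.hrD

lemma Data.pole_mem (d : Data Ω N D r₀ ρ) {a : Fin N → E} (ha : ∀ j, ‖a j‖ < r₀ / 2) (j : Fin N) :
    a j ∈ Ω := d.hball (by
  have := ha j
  have := d.hr₀
  rw [mem_closedBall_zero_iff]
  linarith)

lemma Data.psh_comp0 (d : Data Ω N D r₀ ρ) {a : Fin N → E} (ha : ∀ j, ‖a j‖ < r₀ / 2) :
    PshMaj Ω (comp0 a D r₀ ρ) := by
  refine PshMaj.of_locally fun z hz => ?_
  have hr₀ := d.hr₀
  by_cases hzr : ‖z‖ < r₀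
  · refine ⟨ball 0 r₀, isOpen_ball, by simpa using hzr, logT a D,
      (pshMaj_logT a d.hD0).mono (subset_univ _), ?_⟩
    intro w hw
    rw [mem_ball_zero_iff] at hw
    simp only [comp0, if_pos hw]
  · refine ⟨Ω ∩ {w | 3 * r₀ / 4 < ‖w‖}, d.hΩ.inter (isOpen_lt continuous_const continuous_norm),
      ⟨hz, ?_⟩, fun w => max (logT a D w) (ρ w),
      ((pshMaj_logT a d.hD0).mono (subset_univ _)).sup (d.hρ.mono inter_subset_left), ?_⟩
    · show 3 * r₀ / 4 < ‖z‖
      push Not at hzr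
      linarith
    · rintro w ⟨hw, hwr⟩
      have hwr' : 3 * r₀ / 4 < ‖w‖ := hwr
      by_cases hwr₀ : ‖w‖ < r₀
      · simp only [comp0, if_pos hwr₀]
        refine (max_eq_left ?_).symm
        refine (d.hsmall w (by rw [mem_closedBall_zero_iff]; exact hwr₀.le)).trans ?_
        refine le_logT d.hD0 (by positivity) fun j => ?_
        have h1 := norm_sub_norm_le w (a j)
        have h2 := ha j
        linarith
      · simp only [comp0, if_neg hwr₀]

lemma Data.comp0_neg (d : Data Ω N D r₀ ρ) {a : Fin N → E} (ha : ∀ j, ‖a j‖ < r₀ / 2) {z : E}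
    (hz : z ∈ Ω) : comp0 a D r₀ ρ z < 0 := by
  have h1 : logT a D z < 0 := logT_neg d.hD0 fun j => d.hD z hz _ (d.pole_mem ha j)
  unfold comp0
  split_ifs
  · exact h1
  · exact max_lt h1 (d.hneg z hz)

lemma Data.comp0_pole (d : Data Ω N D r₀ ρ) {a : Fin N → E} (ha : ∀ j, ‖a j‖ < r₀ / 2)
    (j : Fin N) : ∀ᶠ w in 𝓝[≠] (a j), comp0 a D r₀ ρ w ≤
      ((Real.log ‖w - a j‖ + (-Real.log D - 1) : ℝ) : EReal) := by
  have hr₀ := d.hr₀
  have h1 : ball (0 : E) r₀ ∈ 𝓝 (a j) := by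
    refine isOpen_ball.mem_nhds ?_
    rw [mem_ball_zero_iff]
    have := ha j
    linarith
  filter_upwards [self_mem_nhdsWithin, mem_nhdsWithin_of_mem_nhds h1] with w hw hwb
  have hwΩ : w ∈ Ω := d.hball (ball_subset_closedBall hwb)
  rw [mem_ball_zero_iff] at hwb
  simp only [comp0, if_pos hwb]
  exact logT_le d.hD0 (fun i => d.hD w hwΩ _ (d.pole_mem ha i)) j hw

lemma Data.competitor (d : Data Ω N D r₀ ρ) {a : Fin N → E} (ha : ∀ j, ‖a j‖ < r₀ / 2) :
    IsGreenCompetitor Ω (range a) (comp0 a D r₀ ρ) where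
  psh := (d.psh_comp0 ha).isPsh
  neg := fun _ hz => d.comp0_neg ha hz
  pole := by
    rintro _ ⟨j, rfl⟩
    exact ⟨_, d.comp0_pole ha j⟩

end v0

section data

variable {E : Type*} [NormedAddCommGroup E] [NormedSpace ℂ E] [ProperSpace E]

/-- Existence of the data. -/
lemma exists_data {Ω : Set E} (hΩ : IsOpen Ω) (hb : Bornology.IsBounded Ω)
    (hex : HasPshExhaustion Ω) (h0 : (0 : E) ∈ Ω) (N : ℕ) :
    ∃ D r₀ ρ, Data Ω N D r₀ ρ := by
  obtain ⟨r₀, hr₀, hball⟩ := Metric.nhds_basis_closedBall.mem_iff.mp (hΩ.mem_nhds h0)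
  obtain ⟨D₁, hD₁⟩ := hb.exists_norm_le
  set D : ℝ := max r₀ (2 * D₁) with hDdef
  obtain ⟨ρ, hρ, hneg, hexh⟩ := hex
  have hρ' := hρ.pshMaj
  -- upper bound of `ρ` on the closed ball
  obtain ⟨c₀, hc₀, hρc⟩ : ∃ c₀ : ℝ, 0 < c₀ ∧ ∀ z ∈ closedBall (0 : E) r₀, ρ z ≤ ((-c₀ : ℝ) : EReal) := by
    obtain ⟨x, hx, hmax⟩ := (hρ'.usc.mono hball).exists_isMaxOn ⟨0, by simp [hr₀.le]⟩
      (isCompact_closedBall (0 : E) r₀)
    rw [isMaxOn_iff] at hmax
    obtain ⟨y, hy1, hy2⟩ := EReal.lt_iff_exists_real_btwn.mp (hneg x (hball hx))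
    refine ⟨-y, ?_, fun z hz => ?_⟩
    · have : y < 0 := by exact_mod_cast hy2
      linarith
    · rw [neg_neg]
      exact (hmax z hz).trans hy1.le
  set m : ℝ := -(N * Real.log (r₀ / 4 / D) - 1) with hm
  have hD0 : 0 < D := hr₀.trans_le (le_max_left _ _)
  have hmpos : 0 < m := by
    have h1 : Real.log (r₀ / 4 / D) ≤ 0 := by
      refine Real.log_nonpos (by positivity) ?_
      rw [div_le_one hD0]
      have : r₀ ≤ D := le_max_left _ _
      linarith
    have h2 : (0 : ℝ) ≤ N := Nat.cast_nonneg N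
    have h3 : (N : ℝ) * Real.log (r₀ / 4 / D) ≤ 0 := mul_nonpos_of_nonneg_of_nonpos h2 h1
    rw [hm]
    linarith
  have hk : 0 < m / c₀ := div_pos hmpos hc₀
  have hmulreal : ∀ (x : EReal) (y : ℝ), x ≤ (y : EReal) →
      ((m / c₀ : ℝ) : EReal) * x ≤ ((m / c₀ * y : ℝ) : EReal) := by
    intro x y hxy
    rw [EReal.coe_mul]
    exact mul_le_mul_of_nonneg_left hxy (by exact_mod_cast hk.le)
  refine ⟨D, r₀, fun z => ((m / c₀ : ℝ) : EReal) * ρ z, hΩ, hr₀, le_max_left _ _, hball, ?_,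
    hρ'.const_mul hk, ?_, ?_, ?_⟩
  · intro z hz w hw
    have h1 := hD₁ z hz
    have h2 := hD₁ w hw
    have h3 := norm_sub_le z w
    have h4 : 2 * D₁ ≤ D := le_max_right _ _
    linarith
  · intro z hz
    obtain ⟨y, hy1, hy2⟩ := EReal.lt_iff_exists_real_btwn.mp (hneg z hz)
    refine (hmulreal _ _ hy1.le).trans_lt ?_
    have : y < 0 := by exact_mod_cast hy2
    have h1 : m / c₀ * y < 0 := mul_neg_of_pos_of_neg hk this
    exact_mod_cast h1
  · intro c hc
    obtain ⟨K, hKΩ, hK, hKc⟩ := hexh (c / (m / c₀)) (div_neg_of_neg_of_pos hc hk)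
    refine ⟨K, hKΩ, hK, fun z hz => ?_⟩
    have h1 := hKc z hz
    have h2 : (c : EReal) = ((m / c₀ : ℝ) : EReal) * ((c / (m / c₀) : ℝ) : EReal) := by
      rw [← EReal.coe_mul, mul_div_cancel₀ _ hk.ne']
    rw [h2]
    exact mul_le_mul_of_nonneg_left h1 (by exact_mod_cast hk.le)
  · intro z hz
    refine (hmulreal _ _ (hρc z hz)).trans ?_
    rw [EReal.coe_le_coe_iff]
    have : m / c₀ * -c₀ = -m := by field_simp
    rw [this, hm]
    linarith

end data

end Pool.Agent.Lib.MP_eb85ab_an
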