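import Mathlib

/-!
# `L¹_loc` convergence and asymptotic equicontinuity give locally uniform convergence
-/

open Set Filter Topology MeasureTheory Metric
open scoped Real ENNReal

namespace Pool.Agent.Lib.MP_eb85ab_an

section

variable {E : Type*} [NormedAddCommGroup E] [ProperSpace E] [MeasurableSpace E] [BorelSpace E]
  {μ : Measure E} [μ.IsAddHaarMeasure] {U : Set E} {ι : Type*} {l : Filter ι} {G : ι → E → ℝ}
  {g : E → ℝ}

lemma uniformCauchy_of_equicontinuous (hU : IsOpen U)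
    (h1 : ∀ K ⊆ U, IsCompact K → ∀ δ : ℝ, 0 < δ → ∃ σ : ℝ, 0 < σ ∧ ∀ᶠ i in l, ∀ x ∈ K, ∀ y ∈ K,
      dist y x < σ → |G i y - G i x| ≤ δ)
    (h2 : ∀ K ⊆ U, IsCompact K → Tendsto (fun i => ∫⁻ z in K, ‖G i z - g z‖ₑ ∂μ) l (𝓝 0))
    (h3 : ∀ K ⊆ U, IsCompact K → AEMeasurable g (μ.restrict K))
    (h4 : ∀ K ⊆ U, IsCompact K → ∀ᶠ i in l, ContinuousOn (G i) K)
    {K : Set E} (hKU : K ⊆ U) (hK : IsCompact K) : UniformCauchySeqOn G l K := by
  intro u hu
  obtain ⟨ε, hε, hεu⟩ := Metric.mem_uniformity_dist.mp hu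
  obtain ⟨r, hr, hrU⟩ := hK.exists_cthickening_subset_open hU hKU
  set K' : Set E := cthickening r K with hK'
  have hK'c : IsCompact K' := hK.cthickening
  obtain ⟨σ, hσ, hσG⟩ := h1 K' hrU hK'c (ε / 4) (by positivity)
  set r₁ : ℝ := min r σ with hr₁
  have hr₁pos : 0 < r₁ := lt_min hr hσ
  set c : ℝ≥0∞ := μ (ball (0 : E) r₁) with hc
  have hcpos : 0 < c := measure_ball_pos μ _ hr₁pos
  have hctop : c ≠ ⊤ := measure_ball_lt_top.ne
  have hη : 0 < c * ENNReal.ofReal (ε / 4) :=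
    ENNReal.mul_pos hcpos.ne' (by simpa using hε)
  have hev : ∀ᶠ i in l, (∀ x ∈ K', ∀ y ∈ K', dist y x < σ → |G i y - G i x| ≤ ε / 4) ∧
      (∫⁻ z in K', ‖G i z - g z‖ₑ ∂μ) < c * ENNReal.ofReal (ε / 4) ∧
      ContinuousOn (G i) K' :=
    hσG.and (((h2 K' hrU hK'c).eventually (gt_mem_nhds hη)).and (h4 K' hrU hK'c))
  filter_upwards [hev.prod_mk hev] with p hp x hx
  obtain ⟨⟨a1, a2, a3⟩, ⟨b1, b2, b3⟩⟩ := hp
  refine hεu ?_
  rw [Real.dist_eq]
  by_contra hcon
  push Not at hcon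
  have hball : ball x r₁ ⊆ K' := by
    intro y hy
    rw [mem_ball] at hy
    exact mem_cthickening_of_dist_le y x r K hx (hy.le.trans (min_le_left _ _))
  have hxK' : x ∈ K' := self_subset_cthickening _ hx
  have hpt : ∀ y ∈ ball x r₁, ENNReal.ofReal (ε / 2) ≤
      ‖G p.1 y - g y‖ₑ + ‖G p.2 y - g y‖ₑ := by
    intro y hy
    have hy' : dist y x < σ := lt_of_lt_of_le (mem_ball.mp hy) (min_le_right _ _)
    have c1 := a1 x hxK' y (hball hy) hy'
    have c2 := b1 x hxK' y (hball hy) hy'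
    rw [Real.enorm_eq_ofReal_abs, Real.enorm_eq_ofReal_abs, ← ENNReal.ofReal_add (abs_nonneg _)
      (abs_nonneg _)]
    refine ENNReal.ofReal_le_ofReal ?_
    have e1 : G p.1 x - G p.2 x = -(G p.1 y - G p.1 x) + (G p.1 y - g y) - (G p.2 y - g y)
        + (G p.2 y - G p.2 x) := by ring
    have e2 : |G p.1 x - G p.2 x| ≤ |G p.1 y - G p.1 x| + |G p.1 y - g y| + |G p.2 y - g y|
        + |G p.2 y - G p.2 x| := by
      rw [e1]
      refine (abs_add_le _ _).trans ?_
      refine add_le_add ?_ le_rfl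
      refine (abs_sub _ _).trans ?_
      refine add_le_add ?_ le_rfl
      refine (abs_add_le _ _).trans ?_
      rw [abs_neg]
    linarith
  have hmeas : AEMeasurable (fun y => ‖G p.1 y - g y‖ₑ) (μ.restrict (ball x r₁)) := by
    have m1 : AEMeasurable (G p.1) (μ.restrict (ball x r₁)) :=
      (a3.mono hball).aemeasurable measurableSet_ball
    have m2 : AEMeasurable g (μ.restrict (ball x r₁)) :=
      (h3 K' hrU hK'c).mono_measure (Measure.restrict_mono hball le_rfl)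
    exact (m1.sub m2).enorm
  have hint : c * ENNReal.ofReal (ε / 2) ≤
      (∫⁻ y in ball x r₁, ‖G p.1 y - g y‖ₑ ∂μ) + ∫⁻ y in ball x r₁, ‖G p.2 y - g y‖ₑ ∂μ := by
    rw [← lintegral_add_left' hmeas]
    calc c * ENNReal.ofReal (ε / 2) = ∫⁻ _y in ball x r₁, ENNReal.ofReal (ε / 2) ∂μ := by
          rw [setLIntegral_const, Measure.addHaar_ball_center, mul_comm]
      _ ≤ _ := setLIntegral_mono' measurableSet_ball hpt
  have hlt : (∫⁻ y in ball x r₁, ‖G p.1 y - g y‖ₑ ∂μ) + ∫⁻ y in ball x r₁, ‖G p.2 y - g y‖ₑ ∂μ <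
      c * ENNReal.ofReal (ε / 4) + c * ENNReal.ofReal (ε / 4) :=
    ENNReal.add_lt_add ((lintegral_mono_set hball).trans_lt a2)
      ((lintegral_mono_set hball).trans_lt b2)
  have hsum : c * ENNReal.ofReal (ε / 4) + c * ENNReal.ofReal (ε / 4) =
      c * ENNReal.ofReal (ε / 2) := by
    rw [← mul_add, ← ENNReal.ofReal_add (by positivity) (by positivity)]
    congr 2
    ring
  rw [hsum] at hlt
  exact absurd hint (not_le.mpr hlt)

theorem exists_limit_of_equicontinuous [l.NeBot] (hU : IsOpen U)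
    (h1 : ∀ K ⊆ U, IsCompact K → ∀ δ : ℝ, 0 < δ → ∃ σ : ℝ, 0 < σ ∧ ∀ᶠ i in l, ∀ x ∈ K, ∀ y ∈ K,
      dist y x < σ → |G i y - G i x| ≤ δ)
    (h2 : ∀ K ⊆ U, IsCompact K → Tendsto (fun i => ∫⁻ z in K, ‖G i z - g z‖ₑ ∂μ) l (𝓝 0))
    (h3 : ∀ K ⊆ U, IsCompact K → AEMeasurable g (μ.restrict K))
    (h4 : ∀ K ⊆ U, IsCompact K → ∀ᶠ i in l, ContinuousOn (G i) K) :
    ∃ g' : E → ℝ, ContinuousOn g' U ∧ μ {x ∈ U | g' x ≠ g x} = 0 ∧
      ∀ K ⊆ U, IsCompact K → TendstoUniformlyOn G g' l K := by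
  have hC : ∀ K ⊆ U, IsCompact K → UniformCauchySeqOn G l K := fun K hKU hK =>
    uniformCauchy_of_equicontinuous hU h1 h2 h3 h4 hKU hK
  have hlim : ∀ x, ∃ y, x ∈ U → Tendsto (fun i => G i x) l (𝓝 y) := by
    intro x
    by_cases hx : x ∈ U
    · have h5 := (hC {x} (singleton_subset_iff.mpr hx) isCompact_singleton).cauchy_map
        (mem_singleton x)
      obtain ⟨y, hy⟩ := CompleteSpace.complete h5
      exact ⟨y, fun _ => hy⟩
    · exact ⟨0, fun h => absurd h hx⟩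
  choose g' hg' using hlim
  have hunif : ∀ K ⊆ U, IsCompact K → TendstoUniformlyOn G g' l K := fun K hKU hK =>
    (hC K hKU hK).tendstoUniformlyOn_of_tendsto fun x hx => hg' x (hKU hx)
  have hcont : ∀ K ⊆ U, IsCompact K → ContinuousOn g' K := fun K hKU hK =>
    (hunif K hKU hK).continuousOn (h4 K hKU hK).frequently
  refine ⟨g', ?_, ?_, hunif⟩
  · intro x hx
    obtain ⟨r, hr, hball⟩ := Metric.nhds_basis_closedBall.mem_iff.mp (hU.mem_nhds hx)
    exact ((hcont _ hball (isCompact_closedBall x r)).continuousAt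
      (closedBall_mem_nhds x hr)).continuousWithinAt
  · refine measure_null_of_locally_null _ fun x hx => ?_
    obtain ⟨r, hr, hball⟩ := Metric.nhds_basis_closedBall.mem_iff.mp (hU.mem_nhds hx.1)
    set K : Set E := closedBall x r with hKdef
    have hK : IsCompact K := isCompact_closedBall x r
    refine ⟨{x ∈ U | g' x ≠ g x} ∩ K, inter_mem_nhdsWithin _ (closedBall_mem_nhds x hr), ?_⟩
    have hg'm : AEMeasurable g' (μ.restrict K) := (hcont K hball hK).aemeasurable hK.measurableSet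
    have hgm := h3 K hball hK
    have hA : Tendsto (fun i => ∫⁻ z in K, ‖G i z - g' z‖ₑ ∂μ) l (𝓝 0) := by
      rw [ENNReal.tendsto_nhds_zero]
      intro ε hε
      obtain ⟨t, ht, htε⟩ := ENNReal.exists_nnreal_pos_mul_lt (a := μ K) hK.measure_lt_top.ne hε.ne'
      have h5 := Metric.tendstoUniformlyOn_iff.mp (hunif K hball hK) t (by exact_mod_cast ht)
      filter_upwards [h5] with i hi
      refine le_trans ?_ htε.le
      calc ∫⁻ z in K, ‖G i z - g' z‖ₑ ∂μ ≤ ∫⁻ _z in K, (t : ℝ≥0∞) ∂μ := by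
            refine setLIntegral_mono' hK.measurableSet fun z hz => ?_
            have h6 := hi z hz
            rw [dist_comm, Real.dist_eq] at h6
            rw [Real.enorm_eq_ofReal_abs, ← ENNReal.ofReal_coe_nnreal]
            exact ENNReal.ofReal_le_ofReal h6.le
        _ = (t : ℝ≥0∞) * μ K := by rw [setLIntegral_const]
    have hzero : ∫⁻ z in K, ‖g' z - g z‖ₑ ∂μ = 0 := by
      have hsum := hA.add (h2 K hball hK)
      rw [add_zero] at hsum
      have hle : ∀ᶠ i in l, ∫⁻ z in K, ‖g' z - g z‖ₑ ∂μ ≤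
          (∫⁻ z in K, ‖G i z - g' z‖ₑ ∂μ) + ∫⁻ z in K, ‖G i z - g z‖ₑ ∂μ := by
        filter_upwards [h4 K hball hK] with i hi
        have hGm : AEMeasurable (G i) (μ.restrict K) := hi.aemeasurable hK.measurableSet
        have hm : AEMeasurable (fun z => ‖G i z - g' z‖ₑ) (μ.restrict K) := (hGm.sub hg'm).enorm
        rw [← lintegral_add_left' hm]
        refine lintegral_mono fun z => ?_
        have e1 : g' z - g z = -(G i z - g' z) + (G i z - g z) := by ring
        have e2 : ‖g' z - g z‖ₑ ≤ ‖-(G i z - g' z)‖ₑ + ‖G i z - g z‖ₑ := by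
          rw [e1]
          exact enorm_add_le _ _
        rwa [enorm_neg] at e2
      exact le_antisymm (ge_of_tendsto hsum hle) bot_le
    have hm : AEMeasurable (fun z => ‖g' z - g z‖ₑ) (μ.restrict K) := (hg'm.sub hgm).enorm
    rw [lintegral_eq_zero_iff' hm] at hzero
    have h7 : ∀ᵐ z ∂(μ.restrict K), g' z = g z := by
      filter_upwards [hzero] with z hz
      have : ‖g' z - g z‖ₑ = 0 := hz
      rw [enorm_eq_zero, sub_eq_zero] at this
      exact this
    rw [ae_restrict_iff' hK.measurableSet] at h7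
    refine measure_mono_null ?_ (ae_iff.mp h7)
    rintro z ⟨⟨_, hz1⟩, hz2⟩
    show ¬ (z ∈ K → g' z = g z)
    exact fun h => hz1 (h hz2)

end

end Pool.Agent.Lib.MP_eb85ab_an
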