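import Mathlib
import Pool.Agent.Lib.MP_eb85ab_an.Competitor

/-!
# The shift inequality

If `v` is in the defining family of the Green function with poles `a j` close to `0`, then
`v(z₀ + w) - δ ≤ u(z₀)` for some `u` in the same family, for `w` small, uniformly in the poles.
-/

open Set Filter Topology MeasureTheory Metric
open scoped Real ENNReal ComplexConjugate InnerProductSpace

namespace Pool.Agent.Lib.MP_eb85ab_an

section hfun

variable {E : Type*} [NormedAddCommGroup E] [InnerProductSpace ℂ E] {N : ℕ}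

/-- The factors of the polynomial `hfun`. -/
noncomputable def fac (z₀ : E) (a : Fin N → E) (z : E) (j : Fin N) : ℂ :=
  ⟪z₀, z - a j⟫_ℂ / ⟪z₀, z₀ - a j⟫_ℂ

/-- A polynomial which vanishes at the poles and is `1` at `z₀`. -/
noncomputable def hfun (z₀ : E) (a : Fin N → E) (z : E) : ℂ := ∏ j, fac z₀ a z j

lemma differentiable_hfun (z₀ : E) (a : Fin N → E) : Differentiable ℂ (hfun z₀ a) := by
  have h1 : ∀ j, Differentiable ℂ (fun z => fac z₀ a z j) := by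
    intro j
    have h2 : Differentiable ℂ (fun z : E => ⟪z₀, z - a j⟫_ℂ) :=
      (innerSL ℂ z₀).differentiable.comp (by fun_prop)
    unfold fac
    fun_prop
  have h3 : hfun z₀ a = fun z => ∏ j, fac z₀ a z j := rfl
  rw [h3]
  fun_prop

variable {z₀ : E} {a : Fin N → E} {κ : ℝ}

lemma den_ge (hκ : 0 < κ) (hz₀ : κ ≤ ‖z₀‖) (ha : ∀ j, ‖a j‖ ≤ κ / 2) (j : Fin N) :
    ‖z₀‖ * (κ / 2) ≤ ‖⟪z₀, z₀ - a j⟫_ℂ‖ := by
  rw [inner_sub_right]
  have h1 : ‖z₀‖ ^ 2 ≤ ‖⟪z₀, z₀⟫_ℂ‖ := by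
    rw [inner_self_eq_norm_sq_to_K]
    simp
  have h2 : ‖⟪z₀, a j⟫_ℂ‖ ≤ ‖z₀‖ * (κ / 2) :=
    (norm_inner_le_norm _ _).trans (mul_le_mul_of_nonneg_left (ha j) (norm_nonneg _))
  have h3 := norm_sub_norm_le (⟪z₀, z₀⟫_ℂ) (⟪z₀, a j⟫_ℂ)
  nlinarith [norm_nonneg z₀]

lemma den_pos (hκ : 0 < κ) (hz₀ : κ ≤ ‖z₀‖) (ha : ∀ j, ‖a j‖ ≤ κ / 2) (j : Fin N) :
    0 < ‖⟪z₀, z₀ - a j⟫_ℂ‖ :=
  lt_of_lt_of_le (mul_pos (hκ.trans_le hz₀) (by positivity)) (den_ge hκ hz₀ ha j)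

lemma fac_le (hκ : 0 < κ) (hz₀ : κ ≤ ‖z₀‖) (ha : ∀ j, ‖a j‖ ≤ κ / 2) (j : Fin N) (z : E) :
    ‖fac z₀ a z j‖ ≤ 2 / κ * ‖z - a j‖ := by
  unfold fac
  rw [norm_div, div_le_iff₀ (den_pos hκ hz₀ ha j)]
  have h1 := norm_inner_le_norm (𝕜 := ℂ) z₀ (z - a j)
  have h2 := den_ge hκ hz₀ ha j
  calc ‖⟪z₀, z - a j⟫_ℂ‖ ≤ ‖z₀‖ * ‖z - a j‖ := h1
    _ = 2 / κ * ‖z - a j‖ * (‖z₀‖ * (κ / 2)) := by field_simp
    _ ≤ 2 / κ * ‖z - a j‖ * ‖⟪z₀, z₀ - a j⟫_ℂ‖ := mul_le_mul_of_nonneg_left h2 (by positivity)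

lemma hfun_self (hκ : 0 < κ) (hz₀ : κ ≤ ‖z₀‖) (ha : ∀ j, ‖a j‖ ≤ κ / 2) :
    hfun z₀ a z₀ = 1 := by
  refine Finset.prod_eq_one fun j _ => ?_
  exact div_self (norm_pos_iff.mp (den_pos hκ hz₀ ha j))

lemma fac_le_q (hκ : 0 < κ) (hz₀ : κ ≤ ‖z₀‖) (ha : ∀ j, ‖a j‖ ≤ κ / 2) {D : ℝ} {z : E}
    (hz : ∀ j, ‖z - a j‖ ≤ D) (j : Fin N) : ‖fac z₀ a z j‖ ≤ 2 / κ * D + 1 := by
  have h1 := fac_le hκ hz₀ ha j z
  have h2 : 2 / κ * ‖z - a j‖ ≤ 2 / κ * D := mul_le_mul_of_nonneg_left (hz j) (by positivity)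
  linarith

lemma hfun_le (hκ : 0 < κ) (hz₀ : κ ≤ ‖z₀‖) (ha : ∀ j, ‖a j‖ ≤ κ / 2) {D : ℝ} {z : E}
    (hz : ∀ j, ‖z - a j‖ ≤ D) : ‖hfun z₀ a z‖ ≤ (2 / κ * D + 1) ^ N := by
  unfold hfun
  rw [norm_prod]
  calc ∏ j, ‖fac z₀ a z j‖ ≤ ∏ _j : Fin N, (2 / κ * D + 1) :=
        Finset.prod_le_prod (fun j _ => norm_nonneg _) (fun j _ => fac_le_q hκ hz₀ ha hz j)
    _ = (2 / κ * D + 1) ^ N := by rw [Finset.prod_const, Finset.card_univ, Fintype.card_fin]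

lemma hfun_le' (hκ : 0 < κ) (hz₀ : κ ≤ ‖z₀‖) (ha : ∀ j, ‖a j‖ ≤ κ / 2) {D : ℝ} (hD : 0 ≤ D) {z : E}
    (hz : ∀ j, ‖z - a j‖ ≤ D) (j : Fin N) :
    ‖hfun z₀ a z‖ ≤ 2 / κ * (2 / κ * D + 1) ^ N * ‖z - a j‖ := by
  unfold hfun
  rw [norm_prod, ← Finset.mul_prod_erase Finset.univ _ (Finset.mem_univ j)]
  have hq : 1 ≤ 2 / κ * D + 1 := by
    have : 0 ≤ 2 / κ * D := by positivity
    linarith
  have h1 : ∏ i ∈ Finset.univ.erase j, ‖fac z₀ a z i‖ ≤ (2 / κ * D + 1) ^ N := by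
    calc ∏ i ∈ Finset.univ.erase j, ‖fac z₀ a z i‖
        ≤ ∏ _i ∈ Finset.univ.erase j, (2 / κ * D + 1) :=
          Finset.prod_le_prod (fun j _ => norm_nonneg _) (fun j _ => fac_le_q hκ hz₀ ha hz j)
      _ = (2 / κ * D + 1) ^ (Finset.univ.erase j).card := by rw [Finset.prod_const]
      _ ≤ (2 / κ * D + 1) ^ N := by
          refine pow_le_pow_right₀ hq ?_
          refine (Finset.card_le_univ _).trans ?_
          rw [Fintype.card_fin]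
  calc ‖fac z₀ a z j‖ * ∏ i ∈ Finset.univ.erase j, ‖fac z₀ a z i‖
      ≤ (2 / κ * ‖z - a j‖) * (2 / κ * D + 1) ^ N :=
        mul_le_mul (fac_le hκ hz₀ ha j z) h1 (Finset.prod_nonneg fun _ _ => norm_nonneg _)
          (by positivity)
    _ = _ := by ring

end hfun

section shift

variable {E : Type*} [NormedAddCommGroup E] [InnerProductSpace ℂ E] [ProperSpace E] {N : ℕ}
  {Ω : Set E} {D r₀ : ℝ} {ρ : E → EReal}

theorem Data.shift (d : Data Ω N D r₀ ρ) {κ δ : ℝ} (hκ : 0 < κ) (hδ : 0 < δ) :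
    ∃ σ : ℝ, 0 < σ ∧ ∀ a : Fin N → E, (∀ j, ‖a j‖ < r₀ / 2) → (∀ j, ‖a j‖ ≤ κ / 2) →
      ∀ z₀ ∈ Ω, κ ≤ ‖z₀‖ → ∀ w : E, ‖w‖ < σ → z₀ + w ∈ Ω →
      ∀ v : E → EReal, IsGreenCompetitor Ω (range a) v →
        ∃ u : E → EReal, IsGreenCompetitor Ω (range a) u ∧
          v (z₀ + w) + ((-δ : ℝ) : EReal) ≤ u z₀ := by
  obtain ⟨K, hKΩ, hK, hKρ⟩ := d.hexh (-δ) (by linarith)
  set A : Set E := closedBall 0 r₀ ∪ K with hA
  have hAc : IsCompact A := (isCompact_closedBall 0 r₀).union hK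
  have hAΩ : A ⊆ Ω := union_subset d.hball hKΩ
  obtain ⟨η, hη, hηΩ⟩ := hAc.exists_cthickening_subset_open d.hΩ hAΩ
  set H : ℝ := (2 / κ * D + 1) ^ N with hH
  have hD0 := d.hD0
  have hH1 : 1 ≤ H := one_le_pow₀ (by
    have : 0 ≤ 2 / κ * D := by positivity
    linarith)
  have hH0 : 0 < H := by linarith
  set L : ℝ := 2 / κ * H with hL
  have hL0 : 0 < L := by positivity
  refine ⟨min (η / H) (1 / (2 * L)), lt_min (by positivity) (by positivity), ?_⟩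
  intro a ha ha' z₀ hz₀Ω hz₀ w hw hz₀w v hv
  have hw1 : H * ‖w‖ < η := by
    have := hw.trans_le (min_le_left _ _)
    rw [lt_div_iff₀ hH0] at this
    linarith
  have hw2 : L * ‖w‖ < 1 / 2 := by
    have := hw.trans_le (min_le_right _ _)
    rw [lt_div_iff₀ (by positivity)] at this
    linarith
  set Φ : E → E := fun z => z + hfun z₀ a z • w with hΦ
  have hΦd : Differentiable ℂ Φ := by
    have := differentiable_hfun z₀ a
    rw [hΦ]
    fun_prop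
  have hpole : ∀ j, a j ∈ Ω := fun j => d.pole_mem ha j
  have hh1 : ∀ z ∈ Ω, ‖hfun z₀ a z‖ ≤ H := fun z hz =>
    hfun_le hκ hz₀ ha' fun j => d.hD z hz _ (hpole j)
  have hh2 : ∀ z ∈ Ω, ∀ j, ‖hfun z₀ a z‖ ≤ L * ‖z - a j‖ := fun z hz j =>
    hfun_le' hκ hz₀ ha' hD0.le (fun j => d.hD z hz _ (hpole j)) j
  -- `Φ` maps `A` into `Ω`
  have hΦA : ∀ z ∈ A, Φ z ∈ Ω := by
    intro z hz
    refine hηΩ (mem_cthickening_of_dist_le _ z η _ hz ?_)
    rw [dist_eq_norm, hΦ]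
    simp only [add_sub_cancel_left, norm_smul]
    have := mul_le_mul_of_nonneg_right (hh1 z (hAΩ hz)) (norm_nonneg w)
    linarith
  set v₀ : E → EReal := comp0 a D r₀ ρ with hv₀
  have hv₀c := d.competitor ha
  have hv₀psh := d.psh_comp0 ha
  have hvpsh := hv.psh.pshMaj
  -- the new competitor
  set u : E → EReal := fun z =>
    open Classical in if Φ z ∈ Ω then max (v (Φ z) + ((-δ : ℝ) : EReal)) (v₀ z) else v₀ z with hu
  have hbig : ∀ z ∈ Ω, Φ z ∈ Ω → v (Φ z) + ((-δ : ℝ) : EReal) ≤ ((-δ : ℝ) : EReal) := by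
    intro z _ hz'
    calc v (Φ z) + ((-δ : ℝ) : EReal) ≤ 0 + ((-δ : ℝ) : EReal) :=
          add_le_add (hv.neg _ hz').le le_rfl
      _ = _ := zero_add _
  have hupsh : PshMaj Ω u := by
    refine PshMaj.of_locally fun z hz => ?_
    by_cases hzA : z ∈ A
    · refine ⟨Ω ∩ Φ ⁻¹' Ω, d.hΩ.inter (d.hΩ.preimage hΦd.continuous), ⟨hz, hΦA z hzA⟩,
        fun z => max (v (Φ z) + ((-δ : ℝ) : EReal)) (v₀ z), ?_, ?_⟩
      · exact (((hvpsh.comp d.hΩ hΦd).mono inter_subset_right).add_real (-δ)).sup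
          (hv₀psh.mono inter_subset_left)
      · rintro x ⟨_, hx⟩
        have hx' : Φ x ∈ Ω := hx
        simp only [hu]
        rw [if_pos hx']
    · refine ⟨Ω \ A, d.hΩ.sdiff hAc.isClosed, ⟨hz, hzA⟩, v₀, hv₀psh.mono sdiff_subset, ?_⟩
      rintro x ⟨hx, hxA⟩
      simp only [hu]
      split_ifs with hx'
      · refine max_eq_right ((hbig x hx hx').trans ?_)
        have h1 : x ∉ K := fun h => hxA (Or.inr h)
        have h2 : r₀ ≤ ‖x‖ := by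
          by_contra h
          push Not at h
          exact hxA (Or.inl (by rw [mem_closedBall_zero_iff]; exact h.le))
        exact (hKρ x ⟨hx, h1⟩).trans (rho_le_comp0 a D r₀ ρ h2)
      · rfl
  have huneg : ∀ z ∈ Ω, u z < 0 := by
    intro z hz
    simp only [hu]
    split_ifs with hz'
    · refine max_lt ((hbig z hz hz').trans_lt ?_) (hv₀c.neg z hz)
      exact_mod_cast (by linarith : -δ < 0)
    · exact hv₀c.neg z hz
  have hupole : ∀ j, ∃ C : ℝ, ∀ᶠ x in 𝓝[≠] (a j), u x ≤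
      ((Real.log ‖x - a j‖ + C : ℝ) : EReal) := by
    intro j
    obtain ⟨C₁, hC₁⟩ := hv.pole (a j) (mem_range_self j)
    have hC₂ := d.comp0_pole ha j
    -- `Φ` maps a punctured neighbourhood of `a j` into a punctured neighbourhood
    have hbound : ∀ x ∈ Ω, ‖hfun z₀ a x • w‖ ≤ 1 / 2 * ‖x - a j‖ := by
      intro x hx
      rw [norm_smul]
      have h1 := mul_le_mul_of_nonneg_right (hh2 x hx j) (norm_nonneg w)
      have h2 : L * ‖x - a j‖ * ‖w‖ = (L * ‖w‖) * ‖x - a j‖ := by ring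
      rw [h2] at h1
      have h3 := mul_le_mul_of_nonneg_right hw2.le (norm_nonneg (x - a j))
      linarith
    have hΦa : Φ (a j) = a j := by
      have h1 := hbound (a j) (hpole j)
      rw [sub_self, norm_zero, mul_zero] at h1
      have h2 : hfun z₀ a (a j) • w = 0 := norm_le_zero_iff.mp h1
      simp only [hΦ, h2, add_zero]
    have hΩn : Ω ∈ 𝓝 (a j) := d.hΩ.mem_nhds (hpole j)
    have hnorm : ∀ x ∈ Ω, 1 / 2 * ‖x - a j‖ ≤ ‖Φ x - a j‖ ∧ ‖Φ x - a j‖ ≤ 2 * ‖x - a j‖ := by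
      intro x hx
      have h1 := hbound x hx
      have e1 : Φ x - a j = (x - a j) + hfun z₀ a x • w := by
        simp only [hΦ]
        abel
      have h2 := norm_sub_le_norm_add (x - a j) (hfun z₀ a x • w)
      have h3 := norm_add_le (x - a j) (hfun z₀ a x • w)
      rw [e1]
      have h4 := norm_nonneg (x - a j)
      constructor <;> linarith
    have htend : Tendsto Φ (𝓝[≠] (a j)) (𝓝[≠] (a j)) := by
      refine tendsto_nhdsWithin_iff.mpr ⟨?_, ?_⟩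
      · have := hΦd.continuous.tendsto (a j)
        rw [hΦa] at this
        exact this.mono_left nhdsWithin_le_nhds
      · filter_upwards [self_mem_nhdsWithin, mem_nhdsWithin_of_mem_nhds hΩn] with x hx hxΩ
        have h1 : 0 < ‖x - a j‖ := norm_pos_iff.mpr (sub_ne_zero.mpr hx)
        have h2 := (hnorm x hxΩ).1
        have h3 : 0 < ‖Φ x - a j‖ := by linarith
        exact sub_ne_zero.mp (norm_pos_iff.mp h3)
    refine ⟨max (Real.log 2 + C₁) (-Real.log D - 1), ?_⟩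
    filter_upwards [self_mem_nhdsWithin, mem_nhdsWithin_of_mem_nhds hΩn, hC₂,
      htend.eventually hC₁] with x hx hxΩ hx1 hx2
    have hxpos : 0 < ‖x - a j‖ := norm_pos_iff.mpr (sub_ne_zero.mpr hx)
    have hv₀x : v₀ x ≤ ((Real.log ‖x - a j‖ + max (Real.log 2 + C₁) (-Real.log D - 1) : ℝ) :
        EReal) := by
      refine hx1.trans ?_
      rw [EReal.coe_le_coe_iff]
      have := le_max_right (Real.log 2 + C₁) (-Real.log D - 1)
      linarith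
    simp only [hu]
    split_ifs with hx'
    · refine max_le ?_ hv₀x
      have hpos : 0 < ‖Φ x - a j‖ := by
        have := (hnorm x hxΩ).1
        linarith
      have hlog : Real.log ‖Φ x - a j‖ ≤ Real.log 2 + Real.log ‖x - a j‖ := by
        rw [← Real.log_mul two_ne_zero hxpos.ne']
        exact Real.log_le_log hpos (hnorm x hxΩ).2
      calc v (Φ x) + ((-δ : ℝ) : EReal)
          ≤ ((Real.log ‖Φ x - a j‖ + C₁ : ℝ) : EReal) + ((-δ : ℝ) : EReal) :=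
            add_le_add hx2 le_rfl
        _ = ((Real.log ‖Φ x - a j‖ + C₁ + -δ : ℝ) : EReal) := by rw [← EReal.coe_add]
        _ ≤ _ := by
            rw [EReal.coe_le_coe_iff]
            have := le_max_left (Real.log 2 + C₁) (-Real.log D - 1)
            linarith
    · exact hv₀x
  refine ⟨u, ⟨hupsh.isPsh, huneg, ?_⟩, ?_⟩
  · rintro _ ⟨j, rfl⟩
    exact hupole j
  · have hΦz₀ : Φ z₀ = z₀ + w := by
      simp only [hΦ, hfun_self hκ hz₀ ha', one_smul]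
    have : Φ z₀ ∈ Ω := by rw [hΦz₀]; exact hz₀w
    simp only [hu]
    rw [if_pos this, hΦz₀]
    exact le_max_left _ _

/-- Equicontinuity of the Green functions, away from the origin. -/
theorem Data.green_shift (d : Data Ω N D r₀ ρ) {κ δ : ℝ} (hκ : 0 < κ) (hδ : 0 < δ) :
    ∃ σ : ℝ, 0 < σ ∧ ∀ a : Fin N → E, (∀ j, ‖a j‖ < r₀ / 2) → (∀ j, ‖a j‖ ≤ κ / 2) →
      ∀ z₀ ∈ Ω, κ ≤ ‖z₀‖ → ∀ z₁ ∈ Ω, dist z₁ z₀ < σ →
        green Ω (range a) z₁ ≤ green Ω (range a) z₀ + (δ : EReal) := by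
  obtain ⟨σ, hσ, h⟩ := d.shift hκ hδ
  refine ⟨σ, hσ, ?_⟩
  intro a ha ha' z₀ hz₀ hκz z₁ hz₁ hdist
  refine iSup_le fun v => ?_
  have hw : z₀ + (z₁ - z₀) = z₁ := by abel
  obtain ⟨u, hu, huv⟩ := h a ha ha' z₀ hz₀ hκz (z₁ - z₀) (by rwa [← dist_eq_norm])
    (by rw [hw]; exact hz₁) v.1 v.2
  rw [hw] at huv
  have h1 : u z₀ ≤ green Ω (range a) z₀ :=
    le_iSup (fun u : {u : E → EReal // IsGreenCompetitor Ω (range a) u} => u.1 z₀) ⟨u, hu⟩
  have h2 := huv.trans h1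
  rw [EReal.coe_neg, ← sub_eq_add_neg, EReal.sub_le_iff_le_add] at h2
  · exact h2
  · left; exact EReal.coe_ne_bot _
  · left; exact EReal.coe_ne_top _

omit [ProperSpace E] in
lemma green_le_zero (S : Set E) {z : E} (hz : z ∈ Ω) : green Ω S z ≤ 0 :=
  iSup_le fun v => (v.2.neg z hz).le

omit [ProperSpace E] in
lemma Data.le_green (d : Data Ω N D r₀ ρ) {κ : ℝ} (hκ : 0 < κ) {a : Fin N → E}
    (ha : ∀ j, ‖a j‖ < r₀ / 2) (ha' : ∀ j, ‖a j‖ ≤ κ / 2) {z : E} (hz : κ ≤ ‖z‖) :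
    ((N * Real.log (κ / 2 / D) - 1 : ℝ) : EReal) ≤ green Ω (range a) z := by
  have h1 : comp0 a D r₀ ρ z ≤ green Ω (range a) z :=
    le_iSup (fun u : {u : E → EReal // IsGreenCompetitor Ω (range a) u} => u.1 z)
      ⟨_, d.competitor ha⟩
  refine le_trans ?_ ((logT_le_comp0 a D r₀ ρ z).trans h1)
  refine le_logT d.hD0 (by positivity) fun j => ?_
  have h2 := norm_sub_norm_le z (a j)
  have h3 := ha' j
  linarith

omit [ProperSpace E] in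
lemma Data.coe_green (d : Data Ω N D r₀ ρ) {κ : ℝ} (hκ : 0 < κ) {a : Fin N → E}
    (ha : ∀ j, ‖a j‖ < r₀ / 2) (ha' : ∀ j, ‖a j‖ ≤ κ / 2) {z : E} (hzΩ : z ∈ Ω) (hz : κ ≤ ‖z‖) :
    (((green Ω (range a) z).toReal : ℝ) : EReal) = green Ω (range a) z := by
  refine EReal.coe_toReal ?_ ?_
  · intro h
    have := green_le_zero (range a) hzΩ
    rw [h] at this
    exact absurd this (by simp)
  · intro h
    have := d.le_green hκ ha ha' hz
    rw [h] at this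
    exact absurd this (not_le.mpr (EReal.bot_lt_coe _))

/-- Real-valued version of the equicontinuity. -/
theorem Data.equicontinuous (d : Data Ω N D r₀ ρ) {κ δ : ℝ} (hκ : 0 < κ) (hδ : 0 < δ) :
    ∃ σ : ℝ, 0 < σ ∧ ∀ a : Fin N → E, (∀ j, ‖a j‖ < r₀ / 2) → (∀ j, ‖a j‖ ≤ κ / 2) →
      ∀ z₀ ∈ Ω, κ ≤ ‖z₀‖ → ∀ z₁ ∈ Ω, κ ≤ ‖z₁‖ → dist z₁ z₀ < σ →
        |(green Ω (range a) z₁).toReal - (green Ω (range a) z₀).toReal| ≤ δ := by
  obtain ⟨σ, hσ, h⟩ := d.green_shift hκ hδ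
  refine ⟨σ, hσ, ?_⟩
  intro a ha ha' z₀ hz₀ hκz z₁ hz₁ hκz₁ hdist
  have h1 := h a ha ha' z₀ hz₀ hκz z₁ hz₁ hdist
  have h2 := h a ha ha' z₁ hz₁ hκz₁ z₀ hz₀ (by rwa [dist_comm])
  rw [← d.coe_green hκ ha ha' hz₀ hκz, ← d.coe_green hκ ha ha' hz₁ hκz₁, ← EReal.coe_add,
    EReal.coe_le_coe_iff] at h1 h2
  rw [abs_le]
  constructor <;> linarith

end shift

end Pool.Agent.Lib.MP_eb85ab_an
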