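import Mathlib
import Pool.Agent.Lib.MP_eb85ab_an.Shift
import Pool.Agent.Lib.MP_eb85ab_an.Limit

/-!
# Locally uniform convergence of Green functions
-/

open Set Filter Topology MeasureTheory Metric
open scoped Real ENNReal

namespace Pool.Agent.Lib.MP_eb85ab_an

theorem main {n N : ℕ} (hn : 0 < n) {Ω : Set (EuclideanSpace ℂ (Fin n))} (hΩ : IsOpen Ω)
    (hbdd : Bornology.IsBounded Ω) (hex : HasPshExhaustion Ω) (h0 : 0 ∈ Ω)
    {ι : Type*} {l : Filter ι} [l.NeBot] (a : ι → Fin N → EuclideanSpace ℂ (Fin n))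
    (ha : ∀ j, Tendsto (fun i => a i j) l (𝓝 0))
    (g : EuclideanSpace ℂ (Fin n) → ℝ) (hg : LocallyIntegrableOn g Ω)
    (hconv : ∀ K ⊆ Ω, IsCompact K →
      Tendsto (fun i => ∫⁻ z in K, ‖(green Ω (range (a i)) z).toReal - g z‖ₑ) l (𝓝 0)) :
    ∃ g' : EuclideanSpace ℂ (Fin n) → ℝ, ContinuousOn g' (Ω \ {0}) ∧
      g' =ᵐ[volume.restrict Ω] g ∧
      ∀ K ⊆ Ω \ {0}, IsCompact K → ∀ η : ℝ, 0 < η → ∀ᶠ i in l, ∀ z ∈ K,
        ((g' z - η : ℝ) : EReal) < green Ω (range (a i)) z ∧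
        green Ω (range (a i)) z < ((g' z + η : ℝ) : EReal) := by
  obtain ⟨D, r₀, ρ, d⟩ := exists_data hΩ hbdd hex h0 N
  have hU : IsOpen (Ω \ {0}) := hΩ.sdiff isClosed_singleton
  have hκ : ∀ K ⊆ Ω \ {0}, IsCompact K → ∃ κ : ℝ, 0 < κ ∧ ∀ z ∈ K, κ ≤ ‖z‖ := by
    intro K hKU hK
    have h1 : (0 : EuclideanSpace ℂ (Fin n)) ∈ Kᶜ := fun h => (hKU h).2 rfl
    obtain ⟨κ, hκ, hball⟩ := Metric.isOpen_iff.mp hK.isClosed.isOpen_compl 0 h1
    refine ⟨κ, hκ, fun z hz => ?_⟩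
    by_contra h
    push Not at h
    exact hball (mem_ball_zero_iff.mpr h) hz
  have hsmall : ∀ κ : ℝ, 0 < κ → ∀ᶠ i in l, (∀ j, ‖a i j‖ < r₀ / 2) ∧ ∀ j, ‖a i j‖ ≤ κ / 2 := by
    intro κ hκ
    have h1 : ∀ s : ℝ, 0 < s → ∀ᶠ i in l, ∀ j, ‖a i j‖ < s := by
      intro s hs
      rw [eventually_all]
      intro j
      have h2 := (ha j).norm
      rw [norm_zero] at h2
      exact h2.eventually (gt_mem_nhds hs)
    filter_upwards [h1 (r₀ / 2) (by have := d.hr₀; positivity), h1 (κ / 2) (by positivity)]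
      with i hi1 hi2 using ⟨hi1, fun j => (hi2 j).le⟩
  have h1 : ∀ K ⊆ Ω \ {0}, IsCompact K → ∀ δ : ℝ, 0 < δ → ∃ σ : ℝ, 0 < σ ∧ ∀ᶠ i in l,
      ∀ x ∈ K, ∀ y ∈ K, dist y x < σ →
        |(green Ω (range (a i)) y).toReal - (green Ω (range (a i)) x).toReal| ≤ δ := by
    intro K hKU hK δ hδ
    obtain ⟨κ, hκ0, hκK⟩ := hκ K hKU hK
    obtain ⟨σ, hσ, h⟩ := d.equicontinuous hκ0 hδ
    refine ⟨σ, hσ, ?_⟩
    filter_upwards [hsmall κ hκ0] with i hi x hx y hy hxy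
    exact h (a i) hi.1 hi.2 x (hKU hx).1 (hκK x hx) y (hKU hy).1 (hκK y hy) hxy
  have h2 : ∀ K ⊆ Ω \ {0}, IsCompact K →
      Tendsto (fun i => ∫⁻ z in K, ‖(green Ω (range (a i)) z).toReal - g z‖ₑ) l (𝓝 0) :=
    fun K hKU hK => hconv K (hKU.trans sdiff_subset) hK
  have h3 : ∀ K ⊆ Ω \ {0}, IsCompact K → AEMeasurable g (volume.restrict K) := fun K hKU hK =>
    (hg.integrableOn_compact_subset (hKU.trans sdiff_subset) hK).aestronglyMeasurable.aemeasurable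
  have h4 : ∀ K ⊆ Ω \ {0}, IsCompact K → ∀ᶠ i in l,
      ContinuousOn (fun z => (green Ω (range (a i)) z).toReal) K := by
    intro K hKU hK
    obtain ⟨κ, hκ0, hκK⟩ := hκ K hKU hK
    filter_upwards [hsmall κ hκ0] with i hi
    rw [Metric.continuousOn_iff]
    intro x hx ε hε
    obtain ⟨σ, hσ, h⟩ := d.equicontinuous hκ0 (half_pos hε)
    refine ⟨σ, hσ, fun y hy hxy => ?_⟩
    have := h (a i) hi.1 hi.2 x (hKU hx).1 (hκK x hx) y (hKU hy).1 (hκK y hy) hxy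
    rw [Real.dist_eq]
    linarith
  obtain ⟨g', hg'c, hg'0, hg'u⟩ := exists_limit_of_equicontinuous hU h1 h2 h3 h4
  refine ⟨g', hg'c, ?_, ?_⟩
  · have hne : Nonempty (Fin n) := ⟨⟨0, hn⟩⟩
    have hnull : volume ({0} : Set (EuclideanSpace ℂ (Fin n))) = 0 := by
      have : Nontrivial (EuclideanSpace ℂ (Fin n)) := inferInstance
      exact measure_singleton 0
    rw [Filter.EventuallyEq, ae_restrict_iff' hΩ.measurableSet, ae_iff]
    refine measure_mono_null ?_ (measure_union_null hg'0 hnull)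
    intro z hz
    have hz' : ¬ (z ∈ Ω → g' z = g z) := hz
    push Not at hz'
    by_cases h : z = 0
    · exact Or.inr h
    · exact Or.inl ⟨⟨hz'.1, h⟩, hz'.2⟩
  · intro K hKU hK η hη
    obtain ⟨κ, hκ0, hκK⟩ := hκ K hKU hK
    filter_upwards [Metric.tendstoUniformlyOn_iff.mp (hg'u K hKU hK) η hη, hsmall κ hκ0]
      with i hi1 hi2 z hz
    have h1 := hi1 z hz
    rw [dist_comm, Real.dist_eq, abs_lt] at h1
    rw [← d.coe_green hκ0 hi2.1 hi2.2 (hKU hz).1 (hκK z hz), EReal.coe_lt_coe_iff,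
      EReal.coe_lt_coe_iff]
    constructor <;> linarith [h1.1, h1.2]

end Pool.Agent.Lib.MP_eb85ab_an
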